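import Mathlib

/-!
MP_9986fc_gt (helper13).  The unitary group of a finite-dimensional Hilbert space is path connected;
a continuous function without zero on orthonormal `k`-families has constant sign.
-/

set_option autoImplicit false

namespace Pool.Agent.W_9986fc_h13

noncomputable section

universe u

variable {E : Type u} [NormedAddCommGroup E] [InnerProductSpace ℂ E] [FiniteDimensional ℂ E]

theorem finite_spectrum_clm (u : E →L[ℂ] E) : (spectrum ℂ u).Finite := by
  have h := Module.End.finite_spectrum (K := ℂ) (u : E →ₗ[ℂ] E)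
  refine h.subset fun z hz => ?_
  rw [spectrum.mem_iff] at hz ⊢
  intro h1
  apply hz
  obtain ⟨v, hv⟩ := h1
  have hl : ((algebraMap ℂ (E →L[ℂ] E) z - u : E →L[ℂ] E) : E →ₗ[ℂ] E) =
      algebraMap ℂ (Module.End ℂ E) z - (u : E →ₗ[ℂ] E) := by
    ext x
    simp [Algebra.algebraMap_eq_smul_one]
  refine ⟨⟨algebraMap ℂ (E →L[ℂ] E) z - u,
    LinearMap.toContinuousLinearMap ((v⁻¹ : (Module.End ℂ E)ˣ) : Module.End ℂ E), ?_, ?_⟩, rfl⟩
  · ext x
    have h2 := v.mul_inv
    rw [hv, ← hl] at h2
    exact congrArg (fun f : Module.End ℂ E => f x) h2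
  · ext x
    have h2 := v.inv_mul
    rw [hv, ← hl] at h2
    exact congrArg (fun f : Module.End ℂ E => f x) h2

theorem joined_one (u : unitary (E →L[ℂ] E)) : Joined (1 : unitary (E →L[ℂ] E)) u := by
  have hinf : (Metric.sphere (0 : ℂ) 1).Infinite :=
    (isPreconnected_sphere (by rw [Complex.rank_real_complex]; norm_num) (0 : ℂ) 1).infinite_of_nontrivial
      ⟨1, by simp, -1, by simp, by norm_num⟩
  have hfin : ((fun z : ℂ => -z) '' spectrum ℂ (u : E →L[ℂ] E) ∪ {-1}).Finite :=
    ((finite_spectrum_clm (u : E →L[ℂ] E)).image _).union (Set.finite_singleton _)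
  obtain ⟨z, hz, hz2⟩ := (hinf.diff hfin).nonempty
  have hz1 : ‖z‖ = 1 := by simpa using hz
  have hzz : z * star z = 1 := by
    rw [Complex.star_def, Complex.mul_conj, Complex.normSq_eq_norm_sq, hz1]
    simp
  have hz0 : z ≠ 0 := by
    rintro rfl
    simp at hz1
  have hzs : -z ∉ spectrum ℂ (u : E →L[ℂ] E) := by
    intro h
    exact hz2 (Or.inl ⟨-z, h, neg_neg z⟩)
  have hzm : z ≠ -1 := fun h => hz2 (Or.inr h)
  have hmem : (z • (1 : E →L[ℂ] E)) ∈ unitary (E →L[ℂ] E) := by
    rw [Unitary.mem_iff]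
    constructor
    · rw [star_smul, star_one, smul_mul_smul_comm, mul_comm, hzz, one_smul, one_mul]
    · rw [star_smul, star_one, smul_mul_smul_comm, hzz, one_smul, one_mul]
  let l : unitary (E →L[ℂ] E) := ⟨z • 1, hmem⟩
  have h1 : Joined (1 : unitary (E →L[ℂ] E)) l := by
    apply Unitary.joined
    change ‖z • (1 : E →L[ℂ] E) - 1‖ < 2
    rcases subsingleton_or_nontrivial E with hE | hE
    · have : (z • (1 : E →L[ℂ] E) - 1) = 0 := Subsingleton.elim _ _
      rw [this, norm_zero]
      norm_num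
    · have h2 : z • (1 : E →L[ℂ] E) - 1 = (z - 1) • 1 := by rw [sub_smul, one_smul]
      rw [h2, norm_smul, norm_one, mul_one]
      have h3 : ‖z - 1‖ ^ 2 = 2 - 2 * z.re := by
        have h4 : ‖z‖ ^ 2 = 1 := by rw [hz1]; norm_num
        rw [← Complex.normSq_eq_norm_sq, Complex.normSq_apply] at h4 ⊢
        simp only [Complex.sub_re, Complex.sub_im, Complex.one_re, Complex.one_im]
        nlinarith
      have h5 : -1 < z.re := by
        have h4 : ‖z‖ ^ 2 = 1 := by rw [hz1]; norm_num
        rw [← Complex.normSq_eq_norm_sq, Complex.normSq_apply] at h4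
        rcases lt_or_ge (-1) z.re with h6 | h6
        · exact h6
        · exfalso
          apply hzm
          have h7 : z.re = -1 := by nlinarith [mul_self_nonneg z.im]
          have h8 : z.im = 0 := by
            rw [h7] at h4
            have : z.im * z.im = 0 := by linarith
            exact mul_self_eq_zero.1 this
          exact Complex.ext (by simp [h7]) (by simp [h8])
      have h6 := norm_nonneg (z - 1)
      nlinarith
  have h2 : Joined (1 : unitary (E →L[ℂ] E)) (l⁻¹ * u) := by
    apply Unitary.joined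
    have h3 : ((l⁻¹ * u : unitary (E →L[ℂ] E)) : E →L[ℂ] E) = star z • (u : E →L[ℂ] E) := by
      change star (z • (1 : E →L[ℂ] E)) * (u : E →L[ℂ] E) = _
      rw [star_smul, star_one, smul_mul_assoc, one_mul]
    change ‖((l⁻¹ * u : unitary (E →L[ℂ] E)) : E →L[ℂ] E) - 1‖ < 2
    rw [Unitary.norm_sub_one_lt_two_iff (l⁻¹ * u).2, h3, spectrum.mem_iff, not_not]
    rw [spectrum.mem_iff, not_not] at hzs
    have h4 : algebraMap ℂ (E →L[ℂ] E) (-1) - star z • (u : E →L[ℂ] E) =
        star z • (algebraMap ℂ (E →L[ℂ] E) (-z) - (u : E →L[ℂ] E)) := by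
      rw [smul_sub, Algebra.algebraMap_eq_smul_one, Algebra.algebraMap_eq_smul_one, smul_smul]
      congr 2
      rw [mul_neg, mul_comm, hzz]
    rw [h4]
    have hs : star z ≠ 0 := by
      intro h
      rw [h, mul_zero] at hzz
      exact one_ne_zero hzz.symm
    exact IsUnit.smul (Units.mk0 (star z) hs) hzs
  have h3 : Joined l u := by
    obtain ⟨γ⟩ := h2
    have h4 : Joined (l * 1) (l * (l⁻¹ * u)) := ⟨γ.map (continuous_const_mul l)⟩
    rwa [mul_one, mul_inv_cancel_left] at h4
  exact h1.trans h3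

/-- extension of an orthonormal family to an orthonormal basis -/
theorem exists_extend {k : ℕ} {w : Fin k → E} (hw : Orthonormal ℂ w) :
    ∃ (hk : k ≤ Module.finrank ℂ E) (b : OrthonormalBasis (Fin (Module.finrank ℂ E)) ℂ E),
      ∀ j, b (Fin.castLE hk j) = w j := by
  have hk : k ≤ Module.finrank ℂ E := by
    have := hw.linearIndependent.fintype_card_le_finrank
    simpa using this
  refine ⟨hk, ?_⟩
  let v : Fin (Module.finrank ℂ E) → E := fun i => if h : (i : ℕ) < k then w ⟨i, h⟩ else 0
  have hv : Orthonormal ℂ (Set.domRestrict {i : Fin (Module.finrank ℂ E) | (i : ℕ) < k} v) := by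
    rw [orthonormal_iff_ite]
    rintro ⟨i, hi⟩ ⟨j, hj⟩
    have hi' : (i : ℕ) < k := hi
    have hj' : (j : ℕ) < k := hj
    simp only [Set.domRestrict_apply, v, dif_pos hi', dif_pos hj']
    rw [orthonormal_iff_ite.1 hw]
    simp only [Subtype.mk.injEq, Fin.ext_iff]
  obtain ⟨b, hb⟩ := Orthonormal.exists_orthonormalBasis_extension_of_card_eq (𝕜 := ℂ) (E := E)
    (ι := Fin (Module.finrank ℂ E)) (by simp) hv
  refine ⟨b, fun j => ?_⟩
  rw [hb _ (show ((Fin.castLE hk j : Fin _) : ℕ) < k from j.2)]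
  simp [v]

/-- a continuous function without zero on orthonormal families has constant sign -/
theorem sign_const {k : ℕ} {g : (Fin k → E) → ℝ} (hg : Continuous g)
    (hne : ∀ w, Orthonormal ℂ w → g w ≠ 0) {w w' : Fin k → E} (hw : Orthonormal ℂ w)
    (hw' : Orthonormal ℂ w') (hpos : 0 < g w) : 0 < g w' := by
  obtain ⟨hk, b, hb⟩ := exists_extend hw
  obtain ⟨_, b', hb'⟩ := exists_extend hw'
  let e : E ≃ₗᵢ[ℂ] E := b.equiv b' (Equiv.refl _)
  have he : ∀ j, e (w j) = w' j := by
    intro j
    rw [← hb j, ← hb' j]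
    simp [e]
  let U : unitary (E →L[ℂ] E) := Unitary.linearIsometryEquiv.symm e
  have hU : ∀ x, (U : E →L[ℂ] E) x = e x := fun x => rfl
  obtain ⟨γ⟩ := joined_one U
  let W : unitInterval → (Fin k → E) := fun t j => ((γ t : unitary (E →L[ℂ] E)) : E →L[ℂ] E) (w j)
  have hW : ∀ t, Orthonormal ℂ (W t) := by
    intro t
    rw [orthonormal_iff_ite]
    intro i j
    rw [← orthonormal_iff_ite.1 hw i j]
    exact (Unitary.linearIsometryEquiv (γ t)).inner_map_map (w i) (w j)
  have hWc : Continuous W := by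
    refine continuous_pi fun j => ?_
    exact (continuous_subtype_val.comp γ.continuous).clm_apply continuous_const
  have h0 : W 0 = w := by
    funext j
    simp [W]
  have h1 : W 1 = w' := by
    funext j
    simp only [W, Path.target, hU, he]
  by_contra hcon
  push Not at hcon
  obtain ⟨t, ht⟩ := mem_range_of_exists_le_of_exists_ge (c := (0 : ℝ)) (hg.comp hWc)
    ⟨1, by simpa [h1] using hcon⟩ ⟨0, by simpa [h0] using hpos.le⟩
  exact hne _ (hW t) ht

end

end Pool.Agent.W_9986fc_h13
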