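import Mathlib

/-!
MP_9986fc_gt (helper13).  Core lemma for coupling forms over 4-dimensional bases (idea of helper42):
three Hermitian operators of trace 0 on a complex vector space of dimension at least 3 have a common
isotropic unit vector.
-/

set_option autoImplicit false

namespace Pool.Agent.W_9986fc_h13

open Matrix Complex

noncomputable section

variable {E : Type*} [NormedAddCommGroup E] [InnerProductSpace ℂ E]

/-- value of a Hermitian form -/
def Q (T : E →ₗ[ℂ] E) (v : E) : ℝ := (inner ℂ v (T v)).re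

/-- the three values -/
def F (T : Fin 3 → (E →ₗ[ℂ] E)) (v : E) : Fin 3 → ℝ := fun i => Q (T i) v

/-- centre of the Bloch ellipsoid -/
def cen (T : Fin 3 → (E →ₗ[ℂ] E)) (v w : E) : Fin 3 → ℝ :=
  fun i => (Q (T i) v + Q (T i) w) / 2

/-- linear part of the Bloch ellipsoid -/
def lin (T : Fin 3 → (E →ₗ[ℂ] E)) (v w : E) : Matrix (Fin 3) (Fin 3) ℝ :=
  fun i => ![(inner ℂ v (T i w)).re, -(inner ℂ v (T i w)).im, (Q (T i) v - Q (T i) w) / 2]

/-- the affine map of the Bloch ball -/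
def aff (T : Fin 3 → (E →ₗ[ℂ] E)) (v w : E) (n : Fin 3 → ℝ) : Fin 3 → ℝ :=
  cen T v w + lin T v w *ᵥ n

/-- Bloch vector of `a v + b w` -/
def bl (a b : ℂ) : Fin 3 → ℝ :=
  ![2 * (star a * b).re, 2 * (star a * b).im, ‖a‖ ^ 2 - ‖b‖ ^ 2]

theorem Q_comb {T : E →ₗ[ℂ] E} (hT : T.IsSymmetric) (v w : E) (a b : ℂ) :
    Q T (a • v + b • w) = ‖a‖ ^ 2 * Q T v + ‖b‖ ^ 2 * Q T w
      + 2 * ((star a * b) * inner ℂ v (T w)).re := by
  have h1 : inner ℂ w (T v) = star (inner ℂ v (T w)) := by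
    rw [← hT w v]
    exact (inner_conj_symm _ _).symm
  unfold Q
  simp only [map_add, map_smul, inner_add_left, inner_add_right, inner_smul_left,
    inner_smul_right, h1]
  have ha : ‖a‖ ^ 2 = a.re ^ 2 + a.im ^ 2 := by
    rw [← Complex.normSq_eq_norm_sq, Complex.normSq_apply]; ring
  have hb : ‖b‖ ^ 2 = b.re ^ 2 + b.im ^ 2 := by
    rw [← Complex.normSq_eq_norm_sq, Complex.normSq_apply]; ring
  rw [ha, hb]
  simp only [Complex.add_re, Complex.add_im, Complex.mul_re, Complex.mul_im, Complex.conj_re,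
    Complex.conj_im, Complex.star_def]
  have h2 : (inner ℂ v (T v)).im = 0 := by
    have := inner_conj_symm (𝕜 := ℂ) (T v) v
    rw [hT v v] at this
    exact Complex.conj_eq_iff_im.1 this
  have h3 : (inner ℂ w (T w)).im = 0 := by
    have := inner_conj_symm (𝕜 := ℂ) (T w) w
    rw [hT w w] at this
    exact Complex.conj_eq_iff_im.1 this
  rw [h2, h3]
  ring

theorem F_comb {T : Fin 3 → (E →ₗ[ℂ] E)} (hT : ∀ i, (T i).IsSymmetric) (v w : E) {a b : ℂ}
    (hab : ‖a‖ ^ 2 + ‖b‖ ^ 2 = 1) : F T (a • v + b • w) = aff T v w (bl a b) := by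
  funext i
  simp only [F, aff, cen, lin, bl, Pi.add_apply, Matrix.mulVec, dotProduct, Fin.sum_univ_three,
    Matrix.cons_val_zero, Matrix.cons_val_one, Matrix.cons_val_two, Matrix.head_cons,
    Matrix.tail_cons]
  rw [Q_comb (hT i)]
  have h1 : ‖a‖ ^ 2 = (1 + (‖a‖ ^ 2 - ‖b‖ ^ 2)) / 2 := by linarith
  have h2 : ‖b‖ ^ 2 = (1 - (‖a‖ ^ 2 - ‖b‖ ^ 2)) / 2 := by linarith
  set s := ‖a‖ ^ 2 - ‖b‖ ^ 2
  rw [h1, h2]
  rw [Complex.mul_re (star a * b)]
  ring

theorem bl_norm {a b : ℂ} (hab : ‖a‖ ^ 2 + ‖b‖ ^ 2 = 1) : bl a b ⬝ᵥ bl a b = 1 := by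
  have ha : ‖a‖ ^ 2 = a.re ^ 2 + a.im ^ 2 := by
    rw [← Complex.normSq_eq_norm_sq, Complex.normSq_apply]; ring
  have hb : ‖b‖ ^ 2 = b.re ^ 2 + b.im ^ 2 := by
    rw [← Complex.normSq_eq_norm_sq, Complex.normSq_apply]; ring
  simp only [bl, dotProduct, Fin.sum_univ_three, Matrix.cons_val_zero, Matrix.cons_val_one,
    Matrix.cons_val_two, Matrix.head_cons, Matrix.tail_cons]
  rw [ha, hb] at hab ⊢
  simp only [Complex.mul_re, Complex.mul_im, Complex.star_def, Complex.conj_re, Complex.conj_im]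
  have : (1:ℝ) = (a.re ^ 2 + a.im ^ 2 + (b.re ^ 2 + b.im ^ 2)) ^ 2 := by rw [hab]; norm_num
  rw [this]; ring

theorem bl_surj {n : Fin 3 → ℝ} (hn : n ⬝ᵥ n = 1) :
    ∃ a b : ℂ, ‖a‖ ^ 2 + ‖b‖ ^ 2 = 1 ∧ bl a b = n := by
  have hn' : n 0 ^ 2 + n 1 ^ 2 + n 2 ^ 2 = 1 := by
    have := hn
    simp only [dotProduct, Fin.sum_univ_three] at this
    linarith
  by_cases h : n 2 = -1
  · have h0 : n 0 = 0 ∧ n 1 = 0 := by
      rw [h] at hn'
      constructor <;> nlinarith [sq_nonneg (n 0), sq_nonneg (n 1)]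
    refine ⟨0, 1, by simp, ?_⟩
    funext i
    fin_cases i <;> simp [bl, h0.1, h0.2, h]
  · have hlt : -1 < n 2 := by
      rcases lt_or_ge (-1) (n 2) with h1 | h1
      · exact h1
      · exfalso
        apply h
        nlinarith [sq_nonneg (n 0), sq_nonneg (n 1)]
    set r : ℝ := Real.sqrt ((1 + n 2) / 2) with hr
    have hr2 : r ^ 2 = (1 + n 2) / 2 := Real.sq_sqrt (by linarith)
    have hrpos : 0 < r := Real.sqrt_pos.2 (by linarith)
    have hr0 : r ≠ 0 := hrpos.ne'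
    refine ⟨(r : ℂ), ⟨n 0 / (2 * r), n 1 / (2 * r)⟩, ?_, ?_⟩
    · have hb : ‖(⟨n 0 / (2 * r), n 1 / (2 * r)⟩ : ℂ)‖ ^ 2
          = (n 0 / (2 * r)) ^ 2 + (n 1 / (2 * r)) ^ 2 := by
        rw [← Complex.normSq_eq_norm_sq, Complex.normSq_apply]; ring
      have ha : ‖(r : ℂ)‖ ^ 2 = r ^ 2 := by
        rw [Complex.norm_real, Real.norm_eq_abs, sq_abs]
      rw [ha, hb]
      have : (n 0 / (2 * r)) ^ 2 + (n 1 / (2 * r)) ^ 2 = (n 0 ^ 2 + n 1 ^ 2) / (4 * r ^ 2) := by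
        field_simp
        ring
      rw [this, hr2]
      have h3 : n 0 ^ 2 + n 1 ^ 2 = (1 + n 2) * (1 - n 2) := by linarith
      rw [h3]
      have h4 : (1 + n 2) ≠ 0 := by linarith
      field_simp
      ring
    · have hb : ‖(⟨n 0 / (2 * r), n 1 / (2 * r)⟩ : ℂ)‖ ^ 2
          = (n 0 / (2 * r)) ^ 2 + (n 1 / (2 * r)) ^ 2 := by
        rw [← Complex.normSq_eq_norm_sq, Complex.normSq_apply]; ring
      have ha : ‖(r : ℂ)‖ ^ 2 = r ^ 2 := by
        rw [Complex.norm_real, Real.norm_eq_abs, sq_abs]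
      have : (n 0 / (2 * r)) ^ 2 + (n 1 / (2 * r)) ^ 2 = (n 0 ^ 2 + n 1 ^ 2) / (4 * r ^ 2) := by
        field_simp
        ring
      have h3 : n 0 ^ 2 + n 1 ^ 2 = (1 + n 2) * (1 - n 2) := by linarith
      have h4 : (1 + n 2) ≠ 0 := by linarith
      funext i
      fin_cases i
      · simp [bl]
        field_simp
      · simp [bl]
        field_simp
      · simp only [bl, ha, hb, this, hr2, h3]
        simp
        field_simp
        ring


theorem dot_nonneg (n : Fin 3 → ℝ) : 0 ≤ n ⬝ᵥ n := by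
  unfold dotProduct
  exact Finset.sum_nonneg fun i _ => mul_self_nonneg _

theorem dot_pos {n : Fin 3 → ℝ} (h : n ≠ 0) : 0 < n ⬝ᵥ n := by
  rcases (dot_nonneg n).lt_or_eq with h1 | h1
  · exact h1
  · exact absurd (dotProduct_self_eq_zero.1 h1.symm) h

/-- orthonormal pair -/
def Fr (v w : E) : Prop := ‖v‖ = 1 ∧ ‖w‖ = 1 ∧ inner ℂ v w = 0

theorem norm_comb {v w : E} (h : Fr v w) {a b : ℂ} (hab : ‖a‖ ^ 2 + ‖b‖ ^ 2 = 1) :
    ‖a • v + b • w‖ = 1 := by
  obtain ⟨h1, h2, h3⟩ := h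
  have h4 : ‖a • v + b • w‖ ^ 2 = ‖a • v‖ ^ 2 + ‖b • w‖ ^ 2 := by
    rw [@norm_add_sq ℂ, inner_smul_left, inner_smul_right, h3]
    simp
  rw [norm_smul, norm_smul, h1, h2, mul_one, mul_one, hab] at h4
  have h5 := norm_nonneg (a • v + b • w)
  nlinarith

/-- a point of the sphere gives a value -/
theorem aff_sphere {T : Fin 3 → (E →ₗ[ℂ] E)} (hT : ∀ i, (T i).IsSymmetric) {v w : E} (h : Fr v w)
    {n : Fin 3 → ℝ} (hn : n ⬝ᵥ n = 1) : ∃ a b : ℂ, ‖a‖ ^ 2 + ‖b‖ ^ 2 = 1 ∧ bl a b = n ∧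
      ‖a • v + b • w‖ = 1 ∧ aff T v w n = F T (a • v + b • w) := by
  obtain ⟨a, b, h1, h2⟩ := bl_surj hn
  exact ⟨a, b, h1, h2, norm_comb h h1, by rw [F_comb hT v w h1, h2]⟩

/-- from the ball to the sphere in a given direction -/
theorem exists_tau {n k : Fin 3 → ℝ} (hn : n ⬝ᵥ n ≤ 1) (hk : k ≠ 0) :
    ∃ τ : ℝ, 0 ≤ τ ∧ (n + τ • k) ⬝ᵥ (n + τ • k) = 1 := by
  have hK : 0 < k ⬝ᵥ k := dot_pos hk
  set K := k ⬝ᵥ k
  set p := n ⬝ᵥ k
  set c := 1 - n ⬝ᵥ n
  have hc : 0 ≤ c := by simp only [c]; linarith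
  have hd : 0 ≤ p ^ 2 + K * c := by positivity
  have hs := Real.sq_sqrt hd
  have hs0 := Real.sqrt_nonneg (p ^ 2 + K * c)
  set s := Real.sqrt (p ^ 2 + K * c)
  have hps : p ≤ s := by
    apply Real.le_sqrt_of_sq_le
    nlinarith [mul_nonneg hK.le hc]
  refine ⟨(-p + s) / K, div_nonneg (by linarith) hK.le, ?_⟩
  have h1 : (n + ((-p + s) / K) • k) ⬝ᵥ (n + ((-p + s) / K) • k) =
      n ⬝ᵥ n + 2 * ((-p + s) / K) * p + ((-p + s) / K) ^ 2 * K := by
    simp only [add_dotProduct, dotProduct_add, smul_dotProduct, dotProduct_smul, smul_eq_mul]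
    rw [dotProduct_comm k n]
    ring
  rw [h1]
  have h2 : n ⬝ᵥ n = 1 - c := by simp only [c]; ring
  rw [h2]
  field_simp
  nlinarith

theorem aff_add {T : Fin 3 → (E →ₗ[ℂ] E)} {v w : E} (n k : Fin 3 → ℝ) (τ : ℝ) :
    aff T v w (n + τ • k) = aff T v w n + τ • (lin T v w *ᵥ k) := by
  unfold aff
  rw [mulVec_add, mulVec_smul, add_assoc]

theorem isCompact_ball3 : IsCompact {n : Fin 3 → ℝ | n ⬝ᵥ n ≤ 1} := by
  apply Metric.isCompact_of_isClosed_isBounded
  · exact isClosed_le (by unfold dotProduct; fun_prop) continuous_const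
  · rw [Metric.isBounded_iff_subset_closedBall 0]
    refine ⟨1, fun n hn => ?_⟩
    rw [mem_closedBall_zero_iff, pi_norm_le_iff_of_nonneg zero_le_one]
    intro i
    rw [Real.norm_eq_abs]
    have h1 : n i * n i ≤ n ⬝ᵥ n :=
      Finset.single_le_sum (f := fun i => n i * n i) (fun i _ => mul_self_nonneg _)
        (Finset.mem_univ i)
    have h2 : n ⬝ᵥ n ≤ 1 := hn
    apply abs_le_one_iff_mul_self_le_one.2
    linarith

theorem continuous_aff {T : Fin 3 → (E →ₗ[ℂ] E)} {v w : E} : Continuous (aff T v w) := by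
  unfold aff
  exact continuous_const.add (Continuous.matrix_mulVec continuous_const continuous_id)

/-- the vector `(0,0,1)` -/
def e3 : Fin 3 → ℝ := ![0, 0, 1]

theorem e3_dot : e3 ⬝ᵥ e3 = 1 := by simp [e3, dotProduct, Fin.sum_univ_three]

theorem aff_e3 {T : Fin 3 → (E →ₗ[ℂ] E)} (hT : ∀ i, (T i).IsSymmetric) (v w : E) :
    aff T v w e3 = F T v := by
  have h := F_comb hT v w (a := 1) (b := 0) (by simp)
  rw [one_smul, zero_smul, add_zero] at h
  rw [h]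
  congr 1
  funext i
  fin_cases i <;> simp [bl, e3]

theorem aff_neg_e3 {T : Fin 3 → (E →ₗ[ℂ] E)} (hT : ∀ i, (T i).IsSymmetric) (v w : E) :
    aff T v w (-e3) = F T w := by
  have h := F_comb hT v w (a := 0) (b := 1) (by simp)
  rw [one_smul, zero_smul, zero_add] at h
  rw [h]
  congr 1
  funext i
  fin_cases i <;> simp [bl, e3]

/-- if there is no common isotropic vector, `lin` is injective as soon as `0` is in the ball -/
theorem lin_inj {T : Fin 3 → (E →ₗ[ℂ] E)} (hT : ∀ i, (T i).IsSymmetric)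
    (hne : ∀ u : E, ‖u‖ = 1 → F T u ≠ 0) {v w : E} (h : Fr v w) {n : Fin 3 → ℝ}
    (hn : n ⬝ᵥ n ≤ 1) (h0 : aff T v w n = 0) {k : Fin 3 → ℝ} (hk : lin T v w *ᵥ k = 0) : k = 0 := by
  by_contra hk0
  obtain ⟨τ, -, hτ⟩ := exists_tau hn hk0
  obtain ⟨a, b, -, -, hu, he⟩ := aff_sphere hT h hτ
  rw [aff_add, h0, hk, smul_zero, add_zero] at he
  exact hne _ hu he.symm

theorem det_ne {T : Fin 3 → (E →ₗ[ℂ] E)} (hT : ∀ i, (T i).IsSymmetric)
    (hne : ∀ u : E, ‖u‖ = 1 → F T u ≠ 0) {v w : E} (h : Fr v w) {n : Fin 3 → ℝ}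
    (hn : n ⬝ᵥ n ≤ 1) (h0 : aff T v w n = 0) : (lin T v w).det ≠ 0 := by
  intro hd
  obtain ⟨k, hk0, hk⟩ := exists_mulVec_eq_zero_iff.2 hd
  exact hk0 (lin_inj hT hne h hn h0 hk)

theorem ball_lt {T : Fin 3 → (E →ₗ[ℂ] E)} (hT : ∀ i, (T i).IsSymmetric)
    (hne : ∀ u : E, ‖u‖ = 1 → F T u ≠ 0) {v w : E} (h : Fr v w) {n : Fin 3 → ℝ}
    (hn : n ⬝ᵥ n ≤ 1) (h0 : aff T v w n = 0) : n ⬝ᵥ n < 1 := by
  rcases hn.lt_or_eq with h1 | h1
  · exact h1
  · obtain ⟨a, b, -, -, hu, he⟩ := aff_sphere hT h h1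
    rw [h0] at he
    exact absurd he.symm (hne _ hu)

/-- Step 1: a minimiser and a vector on the other side give a 2-plane with `0` inside. -/
theorem exists_inside {T : Fin 3 → (E →ₗ[ℂ] E)} (hT : ∀ i, (T i).IsSymmetric) {v e : E}
    (h : Fr v e) (hv : F T v ≠ 0) (hmin : ∀ u : E, ‖u‖ = 1 → F T v ⬝ᵥ F T v ≤ F T u ⬝ᵥ F T u)
    (he : F T v ⬝ᵥ F T e < 0) : ∃ n : Fin 3 → ℝ, n ⬝ᵥ n ≤ 1 ∧ aff T v e n = 0 := by
  obtain ⟨n, hn, hnmin⟩ := isCompact_ball3.exists_isMinOn (f := fun n => aff T v e n ⬝ᵥ aff T v e n)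
    ⟨0, by simp⟩ (Continuous.continuousOn (by
      have := continuous_aff (T := T) (v := v) (w := e)
      exact this.dotProduct this))
  refine ⟨n, hn, ?_⟩
  set A := F T v ⬝ᵥ F T v with hA
  set B := F T e ⬝ᵥ F T e with hB
  have hA0 : 0 < A := dot_pos hv
  have hB0 : 0 < B := lt_of_lt_of_le hA0 (hmin e h.2.1)
  -- the value is smaller than `A`
  have hlt : aff T v e n ⬝ᵥ aff T v e n < A := by
    set t := A / (A + B) with ht
    have ht0 : 0 < t := div_pos hA0 (by linarith)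
    have ht1 : t < 1 := (div_lt_one (by linarith)).2 (by linarith)
    have h1 : ((1 - 2 * t) • e3) ⬝ᵥ ((1 - 2 * t) • e3) ≤ 1 := by
      rw [smul_dotProduct, dotProduct_smul, e3_dot]
      simp only [smul_eq_mul, mul_one]
      nlinarith
    have h2 : aff T v e ((1 - 2 * t) • e3) = (1 - t) • F T v + t • F T e := by
      rw [← aff_e3 hT v e, ← aff_neg_e3 hT v e]
      unfold aff
      rw [mulVec_smul, mulVec_neg]
      funext i
      simp only [Pi.add_apply, Pi.smul_apply, Pi.neg_apply, smul_eq_mul]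
      ring
    have h3 := hnmin (show (1 - 2 * t) • e3 ∈ {n : Fin 3 → ℝ | n ⬝ᵥ n ≤ 1} from h1)
    have h4 : aff T v e ((1 - 2 * t) • e3) ⬝ᵥ aff T v e ((1 - 2 * t) • e3) =
        (1 - t) ^ 2 * A + 2 * t * (1 - t) * (F T v ⬝ᵥ F T e) + t ^ 2 * B := by
      rw [h2]
      simp only [add_dotProduct, dotProduct_add, smul_dotProduct, dotProduct_smul, smul_eq_mul]
      rw [dotProduct_comm (F T e) (F T v), hA, hB]
      ring
    have h5 : (1 - t) ^ 2 * A + t ^ 2 * B < A := by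
      have h6 : t * (A + B) = A := by rw [ht]; field_simp
      have h7 : (1 - t) ^ 2 * A + t ^ 2 * B = A - t * A := by nlinarith
      rw [h7]
      nlinarith [mul_pos ht0 hA0]
    have h6 : 2 * t * (1 - t) * (F T v ⬝ᵥ F T e) < 0 := by
      apply mul_neg_of_pos_of_neg _ he
      have : 0 < 1 - t := by linarith
      positivity
    have h7 : aff T v e n ⬝ᵥ aff T v e n ≤
        aff T v e ((1 - 2 * t) • e3) ⬝ᵥ aff T v e ((1 - 2 * t) • e3) := h3
    rw [h4] at h7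
    linarith
  -- the sphere is excluded
  have hsph : ∀ m : Fin 3 → ℝ, m ⬝ᵥ m = 1 → A ≤ aff T v e m ⬝ᵥ aff T v e m := by
    intro m hm
    obtain ⟨a, b, -, -, hu, he⟩ := aff_sphere hT h hm
    rw [he]
    exact hmin _ hu
  have hn1 : n ⬝ᵥ n < 1 := by
    rcases (show n ⬝ᵥ n ≤ 1 from hn).lt_or_eq with h1 | h1
    · exact h1
    · exact absurd (hsph n h1) (not_le.2 hlt)
  by_contra hne0
  -- the gradient vanishes
  have hgrad : ∀ k : Fin 3 → ℝ, aff T v e n ⬝ᵥ (lin T v e *ᵥ k) = 0 := by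
    intro k
    set q := aff T v e n ⬝ᵥ (lin T v e *ᵥ k) with hq
    set r := (lin T v e *ᵥ k) ⬝ᵥ (lin T v e *ᵥ k) with hr
    let φ : ℝ → ℝ := fun t => aff T v e n ⬝ᵥ aff T v e n + 2 * t * q + t ^ 2 * r
    have hφ : ∀ t, φ t = aff T v e (n + t • k) ⬝ᵥ aff T v e (n + t • k) := by
      intro t
      rw [aff_add]
      simp only [add_dotProduct, dotProduct_add, smul_dotProduct, dotProduct_smul, smul_eq_mul, φ]
      rw [dotProduct_comm (lin T v e *ᵥ k) (aff T v e n), ← hq, ← hr]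
      ring
    have hloc : IsLocalMin φ 0 := by
      have h1 : ContinuousAt (fun t : ℝ => (n + t • k) ⬝ᵥ (n + t • k)) 0 := by
        apply Continuous.continuousAt
        exact (by fun_prop : Continuous fun t : ℝ => n + t • k).dotProduct
          (by fun_prop : Continuous fun t : ℝ => n + t • k)
      have h2 : (fun t : ℝ => (n + t • k) ⬝ᵥ (n + t • k)) 0 < 1 := by simpa using hn1
      filter_upwards [h1.eventually (gt_mem_nhds h2)] with t ht
      have h3 := hnmin (show n + t • k ∈ {n : Fin 3 → ℝ | n ⬝ᵥ n ≤ 1} from le_of_lt ht)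
      have h4 : φ 0 = aff T v e n ⬝ᵥ aff T v e n := by simp [φ]
      rw [h4, hφ]
      exact h3
    have hder : HasDerivAt φ (2 * q) 0 := by
      have h1 : HasDerivAt (fun t : ℝ => 2 * t * q) (2 * q) 0 := by
        have := ((hasDerivAt_id (0 : ℝ)).const_mul 2).mul_const q
        simpa using this
      have h2 : HasDerivAt (fun t : ℝ => t ^ 2 * r) 0 0 := by
        have := (hasDerivAt_pow 2 (0 : ℝ)).mul_const r
        simpa using this
      have h3 := ((hasDerivAt_const (0 : ℝ) (aff T v e n ⬝ᵥ aff T v e n)).add h1).add h2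
      rw [zero_add, add_zero] at h3
      exact h3
    have := hloc.hasDerivAt_eq_zero hder
    linarith
  have hvm : aff T v e n ᵥ* lin T v e = 0 := by
    funext i
    have h1 := hgrad (Pi.single i 1)
    rw [dotProduct_mulVec, dotProduct_single_one] at h1
    exact h1
  have hd : (lin T v e).det = 0 := exists_vecMul_eq_zero_iff.1 ⟨_, hne0, hvm⟩
  obtain ⟨k, hk0, hk⟩ := exists_mulVec_eq_zero_iff.2 hd
  obtain ⟨τ, -, hτ⟩ := exists_tau hn hk0
  have h1 := hsph _ hτ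
  rw [aff_add, hk, smul_zero, add_zero] at h1
  linarith

end

end Pool.Agent.W_9986fc_h13
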