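import Pool.Agent.W_9986fc_h13.Rigid

/-!
MP_9986fc_gt (helper13).  Lemma F: the isotropic vector lemma for all coadjoint orbits of `U(N)`,
`N ≥ 3`.  For three Hermitian operators `T i` and real numbers `l j` with `(∑ l j) tr (T i) = 0` there
is an orthonormal basis `b` with `∑ j, l j ⟨b j, T i (b j)⟩ = 0` for `i = 0, 1, 2`.
-/

set_option autoImplicit false

namespace Pool.Agent.W_9986fc_h13

open Matrix

noncomputable section

universe u

section affine

variable (C : Fin 3 → ℝ) (M : Matrix (Fin 3) (Fin 3) ℝ)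

/-- from the minimum on the sphere to a zero in the ball -/
theorem aff_inside (h0 : C + M *ᵥ e3 ≠ 0)
    (hmin : ∀ n : Fin 3 → ℝ, n ⬝ᵥ n = 1 →
      (C + M *ᵥ e3) ⬝ᵥ (C + M *ᵥ e3) ≤ (C + M *ᵥ n) ⬝ᵥ (C + M *ᵥ n))
    (hlt : 0 < (C + M *ᵥ e3) ⬝ᵥ (M *ᵥ e3)) : ∃ n : Fin 3 → ℝ, n ⬝ᵥ n ≤ 1 ∧ C + M *ᵥ n = 0 := by
  have hcont : Continuous fun n : Fin 3 → ℝ => C + M *ᵥ n :=
    continuous_const.add (Continuous.matrix_mulVec continuous_const continuous_id)
  obtain ⟨n, hn, hnmin⟩ := isCompact_ball3.exists_isMinOn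
    (f := fun n => (C + M *ᵥ n) ⬝ᵥ (C + M *ᵥ n)) ⟨0, by simp⟩
    (hcont.dotProduct hcont).continuousOn
  refine ⟨n, hn, ?_⟩
  set g0 := C + M *ᵥ e3 with hg0
  set m := M *ᵥ e3 with hm
  have hval : ∀ s : ℝ, C + M *ᵥ (s • e3) = g0 - (1 - s) • m := by
    intro s
    rw [mulVec_smul, ← hm, hg0]
    funext i
    simp only [Pi.add_apply, Pi.smul_apply, Pi.sub_apply, smul_eq_mul]
    ring
  have hnorm : ∀ s : ℝ, (g0 - (1 - s) • m) ⬝ᵥ (g0 - (1 - s) • m) =
      g0 ⬝ᵥ g0 - 2 * (1 - s) * (g0 ⬝ᵥ m) + (1 - s) ^ 2 * (m ⬝ᵥ m) := by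
    intro s
    simp only [sub_dotProduct, dotProduct_sub, smul_dotProduct, dotProduct_smul, smul_eq_mul]
    rw [dotProduct_comm m g0]
    ring
  have hm0 : m ≠ 0 := by
    intro h
    rw [h, dotProduct_zero] at hlt
    exact lt_irrefl _ hlt
  have hmm := dot_pos hm0
  -- smaller value inside
  have hlt2 : (C + M *ᵥ n) ⬝ᵥ (C + M *ᵥ n) < g0 ⬝ᵥ g0 := by
    have h1 : g0 ⬝ᵥ m ≤ m ⬝ᵥ m := by
      have h2 := hmin ((-1 : ℝ) • e3) (by
        rw [smul_dotProduct, dotProduct_smul, e3_dot]; norm_num)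
      rw [hval, hnorm] at h2
      nlinarith
    set q := g0 ⬝ᵥ m
    set D := m ⬝ᵥ m
    set t := q / D with ht
    have ht0 : 0 < t := div_pos hlt hmm
    have ht1 : t ≤ 1 := (div_le_one hmm).2 h1
    have h3 := hnmin (show (1 - t) • e3 ∈ {n : Fin 3 → ℝ | n ⬝ᵥ n ≤ 1} by
      change ((1 - t) • e3) ⬝ᵥ ((1 - t) • e3) ≤ 1
      rw [smul_dotProduct, dotProduct_smul, e3_dot, smul_eq_mul, smul_eq_mul, mul_one]
      nlinarith)
    have h4 : (C + M *ᵥ n) ⬝ᵥ (C + M *ᵥ n) ≤
        (C + M *ᵥ ((1 - t) • e3)) ⬝ᵥ (C + M *ᵥ ((1 - t) • e3)) := h3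
    rw [hval, hnorm] at h4
    have h5 : t * D = q := by rw [ht]; field_simp
    have h6 : 1 - (1 - t) = t := by ring
    rw [h6] at h4
    have h7 : 0 < t * q := mul_pos ht0 hlt
    nlinarith
  have hn1 : n ⬝ᵥ n < 1 := by
    rcases (show n ⬝ᵥ n ≤ 1 from hn).lt_or_eq with h1 | h1
    · exact h1
    · exact absurd (hmin n h1) (not_le.2 hlt2)
  by_contra hne0
  have hgrad : ∀ k : Fin 3 → ℝ, (C + M *ᵥ n) ⬝ᵥ (M *ᵥ k) = 0 := by
    intro k
    set q := (C + M *ᵥ n) ⬝ᵥ (M *ᵥ k) with hq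
    set r := (M *ᵥ k) ⬝ᵥ (M *ᵥ k) with hr
    let φ : ℝ → ℝ := fun t => (C + M *ᵥ n) ⬝ᵥ (C + M *ᵥ n) + 2 * t * q + t ^ 2 * r
    have hφ : ∀ t, φ t = (C + M *ᵥ (n + t • k)) ⬝ᵥ (C + M *ᵥ (n + t • k)) := by
      intro t
      rw [mulVec_add, mulVec_smul, ← add_assoc]
      change _ = (C + M *ᵥ n + t • M *ᵥ k) ⬝ᵥ (C + M *ᵥ n + t • M *ᵥ k)
      rw [add_dotProduct (C + M *ᵥ n), dotProduct_add (C + M *ᵥ n), dotProduct_add (t • M *ᵥ k)]
      rw [smul_dotProduct t (M *ᵥ k) (C + M *ᵥ n), dotProduct_comm (M *ᵥ k) (C + M *ᵥ n)]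
      rw [dotProduct_smul t (C + M *ᵥ n), smul_dotProduct, dotProduct_smul, ← hq, ← hr]
      simp only [smul_eq_mul, φ]
      ring
    have hloc : IsLocalMin φ 0 := by
      have h1 : ContinuousAt (fun t : ℝ => (n + t • k) ⬝ᵥ (n + t • k)) 0 := by
        apply Continuous.continuousAt
        exact (by fun_prop : Continuous fun t : ℝ => n + t • k).dotProduct
          (by fun_prop : Continuous fun t : ℝ => n + t • k)
      have h2 : (fun t : ℝ => (n + t • k) ⬝ᵥ (n + t • k)) 0 < 1 := by simpa using hn1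
      filter_upwards [h1.eventually (gt_mem_nhds h2)] with t ht
      have h3 := hnmin (show n + t • k ∈ {n : Fin 3 → ℝ | n ⬝ᵥ n ≤ 1} from le_of_lt ht)
      have h4 : φ 0 = (C + M *ᵥ n) ⬝ᵥ (C + M *ᵥ n) := by simp [φ]
      rw [h4, hφ]
      exact h3
    have hder : HasDerivAt φ (2 * q) 0 := by
      have h1 : HasDerivAt (fun t : ℝ => 2 * t * q) (2 * q) 0 := by
        have := ((hasDerivAt_id (0 : ℝ)).const_mul 2).mul_const q
        simpa using this
      have h2 : HasDerivAt (fun t : ℝ => t ^ 2 * r) 0 0 := by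
        have := (hasDerivAt_pow 2 (0 : ℝ)).mul_const r
        simpa using this
      have h3 := ((hasDerivAt_const (0 : ℝ) ((C + M *ᵥ n) ⬝ᵥ (C + M *ᵥ n))).add h1).add h2
      rw [zero_add, add_zero] at h3
      exact h3
    have := hloc.hasDerivAt_eq_zero hder
    linarith
  have hvm : (C + M *ᵥ n) ᵥ* M = 0 := by
    funext i
    have h1 := hgrad (Pi.single i 1)
    rw [dotProduct_mulVec, dotProduct_single_one] at h1
    exact h1
  have hd : M.det = 0 := exists_vecMul_eq_zero_iff.1 ⟨_, hne0, hvm⟩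
  obtain ⟨k, hk0, hk⟩ := exists_mulVec_eq_zero_iff.2 hd
  obtain ⟨τ, -, hτ⟩ := exists_tau hn hk0
  have h1 := hmin _ hτ
  rw [mulVec_add, mulVec_smul, hk, smul_zero, add_zero] at h1
  linarith

variable {C M}

theorem aff_inj (hne : ∀ n : Fin 3 → ℝ, n ⬝ᵥ n = 1 → C + M *ᵥ n ≠ 0) {n : Fin 3 → ℝ}
    (hn : n ⬝ᵥ n ≤ 1) (h0 : C + M *ᵥ n = 0) {k : Fin 3 → ℝ} (hk : M *ᵥ k = 0) : k = 0 := by
  by_contra hk0
  obtain ⟨τ, -, hτ⟩ := exists_tau hn hk0
  apply hne _ hτ
  rw [mulVec_add, mulVec_smul, hk, smul_zero, add_zero, h0]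

theorem aff_det (hne : ∀ n : Fin 3 → ℝ, n ⬝ᵥ n = 1 → C + M *ᵥ n ≠ 0) {n : Fin 3 → ℝ}
    (hn : n ⬝ᵥ n ≤ 1) (h0 : C + M *ᵥ n = 0) : M.det ≠ 0 := by
  intro hd
  obtain ⟨k, hk0, hk⟩ := exists_mulVec_eq_zero_iff.2 hd
  exact hk0 (aff_inj hne hn h0 hk)

/-- in a continuous family of affine maps without zeros on the sphere, the existence of a zero in the
ball does not depend on the parameter -/
theorem aff_family {C : ℝ → Fin 3 → ℝ} {M : ℝ → Matrix (Fin 3) (Fin 3) ℝ} (hC : Continuous C)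
    (hM : Continuous M) (hne : ∀ t (n : Fin 3 → ℝ), n ⬝ᵥ n = 1 → C t + M t *ᵥ n ≠ 0)
    (h0 : ∃ n : Fin 3 → ℝ, n ⬝ᵥ n ≤ 1 ∧ C 0 + M 0 *ᵥ n = 0) (s : ℝ) :
    ∃ n : Fin 3 → ℝ, n ⬝ᵥ n ≤ 1 ∧ C s + M s *ᵥ n = 0 := by
  let S : Set ℝ := {t | ∃ n : Fin 3 → ℝ, n ⬝ᵥ n ≤ 1 ∧ C t + M t *ᵥ n = 0}
  have hclosed : IsClosed S := by
    have : CompactSpace {n : Fin 3 → ℝ | n ⬝ᵥ n ≤ 1} := isCompact_iff_compactSpace.1 isCompact_ball3
    have h1 : IsClosed {p : ℝ × {n : Fin 3 → ℝ | n ⬝ᵥ n ≤ 1} | C p.1 + M p.1 *ᵥ (p.2 : Fin 3 → ℝ) = 0} := by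
      apply isClosed_eq _ continuous_const
      exact (hC.comp continuous_fst).add (Continuous.matrix_mulVec (hM.comp continuous_fst)
        (continuous_subtype_val.comp continuous_snd))
    have h2 := isClosedMap_fst_of_compactSpace _ h1
    convert h2 using 1
    ext t
    constructor
    · rintro ⟨n, hn, h3⟩
      exact ⟨(t, ⟨n, hn⟩), h3, rfl⟩
    · rintro ⟨⟨t', n, hn⟩, h3, rfl⟩
      exact ⟨n, hn, h3⟩
  have hopen : IsOpen S := by
    rw [isOpen_iff_mem_nhds]
    rintro t ⟨n, hn, h3⟩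
    have hd := aff_det (hne t) hn h3
    have hlt : n ⬝ᵥ n < 1 := by
      rcases hn.lt_or_eq with h1 | h1
      · exact h1
      · exact absurd h3 (hne t n h1)
    let N : ℝ → (Fin 3 → ℝ) := fun s => -((M s).det⁻¹ • ((M s).adjugate *ᵥ C s))
    have hN : ∀ s, (M s).det ≠ 0 → C s + M s *ᵥ N s = 0 := by
      intro s hs
      simp only [N]
      rw [mulVec_neg, mulVec_smul, mulVec_mulVec, Matrix.mul_adjugate, smul_mulVec, one_mulVec,
        smul_smul, inv_mul_cancel₀ hs, one_smul, add_neg_cancel]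
    have hNt : N t = n := by
      have h4 := hN t hd
      have h5 : M t *ᵥ (N t - n) = 0 := by
        rw [mulVec_sub, eq_neg_of_add_eq_zero_right h4, eq_neg_of_add_eq_zero_right h3, sub_self]
      exact sub_eq_zero.1 (aff_inj (hne t) hn h3 h5)
    have hdc : Continuous fun s => (M s).det := hM.matrix_det
    have hNc : ContinuousAt N t := by
      have h8 : ContinuousAt (fun s => (M s).det⁻¹) t := hdc.continuousAt.inv₀ hd
      have h9 : ContinuousAt (fun s => (M s).adjugate *ᵥ C s) t :=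
        (Continuous.matrix_mulVec hM.matrix_adjugate hC).continuousAt
      exact (h8.smul h9).neg
    have hNd : ContinuousAt (fun s => N s ⬝ᵥ N s) t := by
      have h6 : Continuous fun p : Fin 3 → ℝ => p ⬝ᵥ p := continuous_id.dotProduct continuous_id
      exact h6.continuousAt.comp hNc
    have h7 : N t ⬝ᵥ N t < 1 := by rw [hNt]; exact hlt
    filter_upwards [hNd.eventually (gt_mem_nhds h7), hdc.continuousAt.eventually_ne hd] with s hs1 hs2
    exact ⟨N s, hs1.le, hN s hs2⟩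
  have huniv : S = Set.univ := by
    rcases isClopen_iff.1 (⟨hclosed, hopen⟩ : IsClopen S) with h1 | h1
    · have h2 : (0 : ℝ) ∈ S := h0
      rw [h1] at h2
      exact absurd h2 (Set.notMem_empty _)
    · exact h1
  have : s ∈ S := by rw [huniv]; trivial
  exact this

end affine

variable {E : Type u} [NormedAddCommGroup E] [InnerProductSpace ℂ E]

/-- the weighted sum of the values -/
def FL {N : ℕ} (T : Fin 3 → (E →ₗ[ℂ] E)) (l : Fin N → ℝ) (b : Fin N → E) : Fin 3 → ℝ :=
  ∑ j, l j • F T (b j)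

/-- the centre -/
def cenL {N : ℕ} (T : Fin 3 → (E →ₗ[ℂ] E)) (l : Fin N → ℝ) (b : Fin N → E) (i j : Fin N) :
    Fin 3 → ℝ :=
  FL T l b - l i • F T (b i) - l j • F T (b j) + (l i + l j) • cen T (b i) (b j)

/-- rotation of `b i` and `b j` -/
def rot {N : ℕ} (b : Fin N → E) (i j : Fin N) (α β : ℂ) : Fin N → E := fun m =>
  if m = i then α • b i + β • b j else if m = j then -(star β) • b i + star α • b j else b m

theorem rot_orth {N : ℕ} {b : Fin N → E} (hb : Orthonormal ℂ b) {i j : Fin N} (hij : i ≠ j) {α β : ℂ}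
    (h : ‖α‖ ^ 2 + ‖β‖ ^ 2 = 1) : Orthonormal ℂ (rot b i j α β) := by
  have h1 : star α * α + star β * β = 1 := by
    rw [Complex.star_def, ← Complex.normSq_eq_conj_mul_self, ← Complex.normSq_eq_conj_mul_self,
      Complex.normSq_eq_norm_sq, Complex.normSq_eq_norm_sq]
    exact_mod_cast h
  have hb' := orthonormal_iff_ite.1 hb
  rw [orthonormal_iff_ite]
  intro m n
  have e1 : ∀ p q, inner ℂ (b p) (b q) = if p = q then (1 : ℂ) else 0 := hb'
  have hji : j ≠ i := hij.symm
  unfold rot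
  by_cases hm : m = i
  · subst hm
    rw [if_pos rfl]
    by_cases hn : n = m
    · subst hn
      rw [if_pos rfl, if_pos rfl]
      simp only [inner_add_left, inner_add_right, inner_smul_left, inner_smul_right, e1,
        if_neg hij, if_neg hji, if_true, mul_one, mul_zero, add_zero, zero_add]
      rw [← Complex.star_def, mul_comm α, mul_comm β]
      exact h1
    · rw [if_neg hn, if_neg (Ne.symm hn)]
      by_cases hnj : n = j
      · subst hnj
        rw [if_pos rfl]
        simp only [inner_add_left, inner_add_right, inner_smul_left, inner_smul_right, e1,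
          if_neg hij, if_neg hji, if_true, mul_one, mul_zero, add_zero, zero_add, ← Complex.star_def]
        ring
      · rw [if_neg hnj]
        simp only [inner_add_left, inner_smul_left, e1, if_neg (Ne.symm hn), if_neg (Ne.symm hnj),
          mul_zero, add_zero]
  · rw [if_neg hm]
    by_cases hmj : m = j
    · subst hmj
      rw [if_pos rfl]
      by_cases hn : n = i
      · subst hn
        rw [if_pos rfl, if_neg hm]
        simp only [inner_add_left, inner_add_right, inner_smul_left, inner_smul_right, e1,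
          if_neg hij, if_neg hji, if_true, mul_one, mul_zero, add_zero, zero_add, ← Complex.star_def,
          star_neg, star_star]
        ring
      · rw [if_neg hn]
        by_cases hnj : n = m
        · subst hnj
          rw [if_pos rfl, if_pos rfl]
          simp only [inner_add_left, inner_add_right, inner_smul_left, inner_smul_right, e1,
            if_neg hij, if_neg hji, if_true, mul_one, mul_zero, add_zero, zero_add,
            ← Complex.star_def, star_neg, star_star]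
          rw [neg_mul_neg, mul_comm (star β), mul_comm (star α)]
          rw [mul_comm β, mul_comm α, add_comm]
          exact h1
        · rw [if_neg hnj, if_neg (Ne.symm hnj)]
          simp only [inner_add_left, inner_smul_left, e1, if_neg (Ne.symm hn), if_neg (Ne.symm hnj),
            mul_zero, add_zero]
    · rw [if_neg hmj]
      by_cases hn : n = i
      · subst hn
        rw [if_pos rfl, if_neg hm]
        simp only [inner_add_right, inner_smul_right, e1, if_neg hm, if_neg hmj, mul_zero, add_zero]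
      · rw [if_neg hn]
        by_cases hnj : n = j
        · subst hnj
          rw [if_pos rfl, if_neg hmj]
          simp only [inner_add_right, inner_smul_right, e1, if_neg hm, if_neg hmj, mul_zero, add_zero]
        · rw [if_neg hnj]
          exact e1 m n

theorem FL_rot {N : ℕ} {T : Fin 3 → (E →ₗ[ℂ] E)} (hT : ∀ i, (T i).IsSymmetric) (l : Fin N → ℝ)
    (b : Fin N → E) {i j : Fin N} (hij : i ≠ j) {α β : ℂ} (h : ‖α‖ ^ 2 + ‖β‖ ^ 2 = 1) :
    FL T l (rot b i j α β) =
      cenL T l b i j + ((l i - l j) • lin T (b i) (b j)) *ᵥ bl α β := by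
  have h' : ‖-(star β)‖ ^ 2 + ‖star α‖ ^ 2 = 1 := by
    rw [norm_neg, norm_star, norm_star]; linarith
  have hbl : bl (-(star β)) (star α) = -bl α β := by
    have e1 : star (-(star β)) * star α = -(star α * β) := by
      rw [star_neg, star_star]; ring
    funext m
    unfold bl
    rw [e1, norm_neg, norm_star, norm_star]
    fin_cases m
    · simp; ring
    · simp; ring
    · simp
  have hsum : ∀ g : Fin N → (Fin 3 → ℝ), ∑ m, g m = g i + g j + ∑ m ∈ Finset.univ \ {i, j}, g m := by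
    intro g
    rw [← Finset.sum_pair hij, add_comm, Finset.sum_sdiff (Finset.subset_univ _)]
  unfold FL cenL
  rw [hsum]
  have hr : ∑ m ∈ Finset.univ \ {i, j}, l m • F T (rot b i j α β m) =
      ∑ m ∈ Finset.univ \ {i, j}, l m • F T (b m) := by
    refine Finset.sum_congr rfl fun m hm => ?_
    simp only [Finset.mem_sdiff, Finset.mem_univ, Finset.mem_insert, Finset.mem_singleton,
      not_or, true_and] at hm
    unfold rot
    rw [if_neg hm.1, if_neg hm.2]
  rw [hr]
  have e1 : rot b i j α β i = α • b i + β • b j := by unfold rot; rw [if_pos rfl]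
  have e2 : rot b i j α β j = -(star β) • b i + star α • b j := by
    unfold rot; rw [if_neg hij.symm, if_pos rfl]
  rw [e1, e2, F_comb hT _ _ h, F_comb hT _ _ h', hbl]
  unfold FL
  rw [hsum (fun m => l m • F T (b m)), smul_mulVec]
  unfold aff
  rw [mulVec_neg]
  funext m
  simp only [Pi.add_apply, Pi.smul_apply, Pi.sub_apply, Pi.neg_apply, smul_eq_mul]
  ring

end

end Pool.Agent.W_9986fc_h13
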