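import Pool.Agent.W_9986fc_h13.Flag

/-!
MP_9986fc_gt (helper13).  Lemma F, see `Flag.lean`.
-/

set_option autoImplicit false

namespace Pool.Agent.W_9986fc_h13

open Matrix

noncomputable section

universe u

variable {E : Type u} [NormedAddCommGroup E] [InnerProductSpace ℂ E]

/-- a path of orthonormal families -/
theorem exists_path [FiniteDimensional ℂ E] {k : ℕ} {w w' : Fin k → E} (hw : Orthonormal ℂ w)
    (hw' : Orthonormal ℂ w') : ∃ W : ℝ → Fin k → E, Continuous W ∧ (∀ t, Orthonormal ℂ (W t)) ∧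
      W 0 = w ∧ W 1 = w' := by
  obtain ⟨hk, b, hb⟩ := exists_extend hw
  obtain ⟨_, b', hb'⟩ := exists_extend hw'
  let e : E ≃ₗᵢ[ℂ] E := b.equiv b' (Equiv.refl _)
  have he : ∀ j, e (w j) = w' j := by
    intro j
    rw [← hb j, ← hb' j]
    simp [e]
  let U : unitary (E →L[ℂ] E) := Unitary.linearIsometryEquiv.symm e
  have hU : ∀ x, (U : E →L[ℂ] E) x = e x := fun x => rfl
  obtain ⟨γ⟩ := joined_one U
  refine ⟨fun t j => ((γ.extend t : unitary (E →L[ℂ] E)) : E →L[ℂ] E) (w j), ?_, ?_, ?_, ?_⟩
  · refine continuous_pi fun j => ?_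
    exact (continuous_subtype_val.comp γ.continuous_extend).clm_apply continuous_const
  · intro t
    rw [orthonormal_iff_ite]
    intro i j
    rw [← orthonormal_iff_ite.1 hw i j]
    exact (Unitary.linearIsometryEquiv (γ.extend t)).inner_map_map (w i) (w j)
  · funext j
    simp
  · funext j
    simp only [Path.extend_one, hU, he]

/-- a Hermitian operator on a space of dimension at least 3 has a 2-plane with scalar compression -/
theorem exists_bad [FiniteDimensional ℂ E] (hE : 3 ≤ Module.finrank ℂ E) {T : E →ₗ[ℂ] E}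
    (hT : T.IsSymmetric) : ∃ v w : E, Fr v w ∧ (inner ℂ v (T w) : ℂ) = 0 ∧ Q T v = Q T w := by
  let b := hT.eigenvectorBasis rfl
  let μ := hT.eigenvalues (rfl : Module.finrank ℂ E = Module.finrank ℂ E)
  have hb : ∀ i, T (b i) = (μ i : ℂ) • b i := fun i => hT.apply_eigenvectorBasis rfl i
  have hin : ∀ i j, inner ℂ (b i) (b j) = if i = j then (1 : ℂ) else 0 :=
    orthonormal_iff_ite.1 b.orthonormal
  have hQ : ∀ i, Q T (b i) = μ i := by
    intro i
    unfold Q
    rw [hb, inner_smul_right, hin, if_pos rfl, mul_one, Complex.ofReal_re]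
  have key : ∀ p q r : Fin (Module.finrank ℂ E), p ≠ q → q ≠ r → p ≠ r → μ p ≤ μ q → μ q ≤ μ r →
      ∃ v w : E, Fr v w ∧ (inner ℂ v (T w) : ℂ) = 0 ∧ Q T v = Q T w := by
    intro p q r hpq hqr hpr h1 h2
    obtain ⟨s, hs0, hs1, hs⟩ : ∃ s : ℝ, 0 ≤ s ∧ s ≤ 1 ∧ (1 - s) * μ p + s * μ r = μ q := by
      rcases (h1.trans h2).lt_or_eq with h3 | h3
      · refine ⟨(μ q - μ p) / (μ r - μ p), ?_, ?_, ?_⟩
        · exact div_nonneg (by linarith) (by linarith)
        · rw [div_le_one (by linarith)]; linarith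
        · have : μ r - μ p ≠ 0 := by linarith
          field_simp
          ring
      · exact ⟨0, le_rfl, zero_le_one, by rw [sub_zero, one_mul, zero_mul, add_zero]; linarith⟩
    have ha : ‖((Real.sqrt (1 - s) : ℝ) : ℂ)‖ ^ 2 = 1 - s := by
      rw [Complex.norm_real, Real.norm_eq_abs, sq_abs, Real.sq_sqrt (by linarith)]
    have hc : ‖((Real.sqrt s : ℝ) : ℂ)‖ ^ 2 = s := by
      rw [Complex.norm_real, Real.norm_eq_abs, sq_abs, Real.sq_sqrt hs0]
    refine ⟨b q, ((Real.sqrt (1 - s) : ℝ) : ℂ) • b p + ((Real.sqrt s : ℝ) : ℂ) • b r, ⟨?_, ?_, ?_⟩,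
      ?_, ?_⟩
    · exact b.orthonormal.1 q
    · refine norm_comb ⟨b.orthonormal.1 p, b.orthonormal.1 r, ?_⟩ (by rw [ha, hc]; ring)
      rw [hin, if_neg hpr]
    · rw [inner_add_right, inner_smul_right, inner_smul_right, hin, hin, if_neg hpq.symm,
        if_neg hqr, mul_zero, mul_zero, add_zero]
    · rw [map_add, map_smul, map_smul, hb, hb, inner_add_right, inner_smul_right, inner_smul_right,
        inner_smul_right, inner_smul_right, hin, hin, if_neg hpq.symm, if_neg hqr]
      simp
    · rw [Q_comb hT, ha, hc, hQ, hQ, hQ, hb, inner_smul_right, hin, if_neg hpr, mul_zero, mul_zero,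
        Complex.zero_re, mul_zero, add_zero, hs]
  let i0 : Fin (Module.finrank ℂ E) := ⟨0, by omega⟩
  let i1 : Fin (Module.finrank ℂ E) := ⟨1, by omega⟩
  let i2 : Fin (Module.finrank ℂ E) := ⟨2, by omega⟩
  have h01 : i0 ≠ i1 := by simp [i0, i1]
  have h02 : i0 ≠ i2 := by simp [i0, i2]
  have h12 : i1 ≠ i2 := by simp [i1, i2]
  rcases le_total (μ i0) (μ i1) with h1 | h1 <;> rcases le_total (μ i1) (μ i2) with h2 | h2 <;>
    rcases le_total (μ i0) (μ i2) with h3 | h3
  · exact key i0 i1 i2 h01 h12 h02 h1 h2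
  · exact key i0 i1 i2 h01 h12 h02 h1 h2
  · exact key i0 i2 i1 h02 h12.symm h01 h3 h2
  · exact key i2 i0 i1 h02.symm h01 h12.symm h3 h1
  · exact key i1 i0 i2 h01.symm h02 h12 h1 h3
  · exact key i1 i2 i0 h12 h02.symm h01.symm h2 h3
  · exact key i2 i1 i0 h12.symm h01.symm h02.symm h2 h1
  · exact key i2 i1 i0 h12.symm h01.symm h02.symm h2 h1

theorem isCompact_orth [FiniteDimensional ℂ E] (k : ℕ) : IsCompact {b : Fin k → E | Orthonormal ℂ b} := by
  have : ProperSpace E := FiniteDimensional.proper ℂ E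
  apply Metric.isCompact_of_isClosed_isBounded
  · have : {b : Fin k → E | Orthonormal ℂ b} =
        ⋂ i, ⋂ j, {b : Fin k → E | inner ℂ (b i) (b j) = if i = j then (1 : ℂ) else 0} := by
      ext b
      simp only [Set.mem_iInter, Set.mem_setOf_eq]
      exact orthonormal_iff_ite
    rw [this]
    refine isClosed_iInter fun i => isClosed_iInter fun j => ?_
    exact isClosed_eq ((continuous_apply i).inner (continuous_apply j)) continuous_const
  · rw [Metric.isBounded_iff_subset_closedBall 0]
    refine ⟨1, fun b hb => ?_⟩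
    rw [mem_closedBall_zero_iff, pi_norm_le_iff_of_nonneg zero_le_one]
    intro i
    exact (hb.1 i).le

theorem continuous_F [FiniteDimensional ℂ E] (T : Fin 3 → (E →ₗ[ℂ] E)) : Continuous (F T) := by
  refine continuous_pi fun i => ?_
  unfold F Q
  exact Complex.continuous_re.comp (continuous_id.inner (LinearMap.continuous_of_finiteDimensional _))

theorem continuous_FL [FiniteDimensional ℂ E] {N : ℕ} (T : Fin 3 → (E →ₗ[ℂ] E)) (l : Fin N → ℝ) :
    Continuous (FL T l) := by
  unfold FL
  refine continuous_finsetSum _ fun j _ => ?_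
  have h : Continuous fun b : Fin N → E => F T (b j) := (continuous_F T).comp (continuous_apply j)
  exact h.const_smul (l j)

theorem continuous_cen [FiniteDimensional ℂ E] {N : ℕ} (T : Fin 3 → (E →ₗ[ℂ] E)) (i j : Fin N) :
    Continuous fun b : Fin N → E => cen T (b i) (b j) := by
  refine continuous_pi fun m => ?_
  unfold cen
  have h1 := (continuous_apply m).comp ((continuous_F T).comp (continuous_apply (A := fun _ => E) i))
  have h2 := (continuous_apply m).comp ((continuous_F T).comp (continuous_apply (A := fun _ => E) j))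
  exact (h1.add h2).div_const 2

theorem continuous_lin [FiniteDimensional ℂ E] {N : ℕ} (T : Fin 3 → (E →ₗ[ℂ] E)) (i j : Fin N) :
    Continuous fun b : Fin N → E => lin T (b i) (b j) := by
  have h1 := fun m => (continuous_apply m).comp
    ((continuous_F T).comp (continuous_apply (A := fun _ => E) i))
  have h2 := fun m => (continuous_apply m).comp
    ((continuous_F T).comp (continuous_apply (A := fun _ => E) j))
  have h3 : ∀ m, Continuous fun b : Fin N → E => inner ℂ (b i) (T m (b j)) := fun m =>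
    (continuous_apply i).inner ((LinearMap.continuous_of_finiteDimensional _).comp (continuous_apply j))
  refine continuous_matrix fun m n => ?_
  fin_cases n
  · exact Complex.continuous_re.comp (h3 m)
  · exact (Complex.continuous_im.comp (h3 m)).neg
  · exact ((h1 m).sub (h2 m)).div_const 2

/-- **Lemma F.** -/
theorem exists_flag_zero [FiniteDimensional ℂ E] (hE : 3 ≤ Module.finrank ℂ E)
    (T : Fin 3 → (E →ₗ[ℂ] E)) (hT : ∀ i, (T i).IsSymmetric)
    (l : Fin (Module.finrank ℂ E) → ℝ)
    (htr : ∀ i, (∑ j, l j) * (LinearMap.trace ℂ E (T i)).re = 0) :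
    ∃ b : Fin (Module.finrank ℂ E) → E, Orthonormal ℂ b ∧ FL T l b = 0 := by
  by_contra hcon
  push Not at hcon
  obtain ⟨b, hb, hbmin⟩ := (isCompact_orth (E := E) (Module.finrank ℂ E)).exists_isMinOn
    (f := fun b => FL T l b ⬝ᵥ FL T l b) ⟨_, (stdOrthonormalBasis ℂ E).orthonormal⟩
    ((continuous_FL T l).dotProduct (continuous_FL T l)).continuousOn
  have hb' : Orthonormal ℂ b := hb
  have hmin : ∀ b', Orthonormal ℂ b' → FL T l b ⬝ᵥ FL T l b ≤ FL T l b' ⬝ᵥ FL T l b' :=
    fun b' h => hbmin h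
  set g0 := FL T l b with hg0
  have hr : 0 < g0 ⬝ᵥ g0 := dot_pos (hcon b hb')
  set a : Fin (Module.finrank ℂ E) → ℝ := fun j => g0 ⬝ᵥ F T (b j) with ha
  have h1 : ∑ j, l j * a j = g0 ⬝ᵥ g0 := by
    have h0 : g0 ⬝ᵥ FL T l b = ∑ j, l j * a j := by
      unfold FL
      rw [dotProduct_sum]
      exact Finset.sum_congr rfl fun j _ => by rw [dotProduct_smul, smul_eq_mul]
    exact h0.symm
  -- the sum of the values over a basis is the trace
  have h2 : (∑ j, l j) * ∑ j, a j = 0 := by
    obtain ⟨_, bb, hbb⟩ := exists_extend hb'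
    have hbb' : ∀ j, bb j = b j := fun j => hbb j
    have h3 : ∀ i, ∑ j, F T (b j) i = (LinearMap.trace ℂ E (T i)).re := by
      intro i
      rw [LinearMap.trace_eq_sum_inner (T i) bb, Complex.re_sum]
      exact Finset.sum_congr rfl fun j _ => by rw [hbb']; rfl
    have h4 : ∑ j, a j = ∑ i, g0 i * (LinearMap.trace ℂ E (T i)).re := by
      simp only [ha, dotProduct]
      rw [Finset.sum_comm]
      exact Finset.sum_congr rfl fun i _ => by rw [← Finset.mul_sum, h3]
    rw [h4, Finset.mul_sum]
    refine Finset.sum_eq_zero fun i _ => ?_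
    rw [mul_left_comm, htr i, mul_zero]
  have h3 : ∑ i, ∑ j, (l i - l j) * (a i - a j) = 2 * (Module.finrank ℂ E) * (g0 ⬝ᵥ g0) := by
    have e1 : ∀ i, ∑ j, (l i - l j) * (a i - a j) = (Module.finrank ℂ E) * (l i * a i) -
        l i * ∑ j, a j - (∑ j, l j) * a i + g0 ⬝ᵥ g0 := by
      intro i
      have : ∀ j, (l i - l j) * (a i - a j) = l i * a i - l i * a j - l j * a i + l j * a j := by
        intro j; ring
      have s1 : ∑ _j : Fin (Module.finrank ℂ E), l i * a i = (Module.finrank ℂ E) * (l i * a i) := by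
        rw [Finset.sum_const, Finset.card_univ, Fintype.card_fin, nsmul_eq_mul]
      have s2 : ∑ j, l i * a j = l i * ∑ j, a j := (Finset.mul_sum _ _ _).symm
      have s3 : ∑ j, l j * a i = (∑ j, l j) * a i := (Finset.sum_mul _ _ _).symm
      simp only [this]
      rw [Finset.sum_add_distrib, Finset.sum_sub_distrib, Finset.sum_sub_distrib, h1, s1, s2, s3]
    simp only [e1]
    have s1 : ∑ i, (Module.finrank ℂ E : ℝ) * (l i * a i) = (Module.finrank ℂ E) * (g0 ⬝ᵥ g0) := by
      rw [← Finset.mul_sum, h1]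
    have s2 : ∑ i, l i * ∑ j, a j = 0 := by rw [← Finset.sum_mul, h2]
    have s3 : ∑ i, (∑ j, l j) * a i = 0 := by rw [← Finset.mul_sum, h2]
    rw [Finset.sum_add_distrib, Finset.sum_sub_distrib, Finset.sum_sub_distrib, s1, s2, s3,
      Finset.sum_const, Finset.card_univ, Fintype.card_fin, nsmul_eq_mul]
    ring
  obtain ⟨i, j, hij0⟩ : ∃ i j, 0 < (l i - l j) * (a i - a j) := by
    by_contra h
    push Not at h
    have h4 : ∑ i, ∑ j, (l i - l j) * (a i - a j) ≤ 0 :=
      Finset.sum_nonpos fun i _ => Finset.sum_nonpos fun j _ => h i j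
    rw [h3] at h4
    have h5 : (0 : ℝ) < (Module.finrank ℂ E) := by exact_mod_cast (by omega : 0 < Module.finrank ℂ E)
    have := mul_pos (mul_pos two_pos h5) hr
    linarith
  have hij : i ≠ j := by
    rintro rfl
    simp at hij0
  -- no zeros on the spheres
  have hval : ∀ b', Orthonormal ℂ b' → ∀ n : Fin 3 → ℝ, n ⬝ᵥ n = 1 → ∃ b'', Orthonormal ℂ b'' ∧
      cenL T l b' i j + ((l i - l j) • lin T (b' i) (b' j)) *ᵥ n = FL T l b'' := by
    intro b' hb'' n hn
    obtain ⟨α, β, h4, h5⟩ := bl_surj hn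
    exact ⟨rot b' i j α β, rot_orth hb'' hij h4, by rw [FL_rot hT l b' hij h4, h5]⟩
  have hbe : cenL T l b i j + ((l i - l j) • lin T (b i) (b j)) *ᵥ e3 = g0 := by
    have h4 := FL_rot hT l b hij (α := 1) (β := 0) (by simp)
    have h5 : rot b i j 1 0 = b := by
      funext m
      unfold rot
      by_cases h6 : m = i
      · simp [h6]
      · by_cases h7 : m = j
        · simp [h7, hij.symm]
        · simp [h6, h7]
    have h6 : bl 1 0 = e3 := by
      funext m
      fin_cases m <;> simp [bl, e3]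
    rw [h5, h6] at h4
    exact h4.symm
  obtain ⟨n, hn, hn0⟩ := aff_inside (cenL T l b i j) ((l i - l j) • lin T (b i) (b j))
    (by rw [hbe]; exact hcon b hb')
    (fun n hn => by
      obtain ⟨b'', hb'', h4⟩ := hval b hb' n hn
      rw [hbe, h4]
      exact hmin b'' hb'')
    (by
      rw [hbe]
      have h4 : ((l i - l j) • lin T (b i) (b j)) *ᵥ e3 =
          ((l i - l j) / 2) • (F T (b i) - F T (b j)) := by
        rw [smul_mulVec]
        funext m
        simp only [Pi.smul_apply, Pi.sub_apply, smul_eq_mul, mulVec, dotProduct, e3, lin,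
          Fin.sum_univ_three, F]
        simp
        ring
      rw [h4, dotProduct_smul, dotProduct_sub, smul_eq_mul]
      have h5 : (l i - l j) / 2 * (g0 ⬝ᵥ F T (b i) - g0 ⬝ᵥ F T (b j)) =
          ((l i - l j) * (a i - a j)) / 2 := by simp only [ha]; ring
      rw [h5]
      linarith)
  -- the bad frame
  obtain ⟨v, w, hvw, hvw0, hvwQ⟩ := exists_bad hE (hT 0)
  obtain ⟨bb, hbb⟩ := Orthonormal.exists_orthonormalBasis_extension_of_card_eq (𝕜 := ℂ) (E := E)
    (ι := Fin (Module.finrank ℂ E)) (by simp) (v := fun m => if m = i then v else w) (s := {i, j}) (by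
      rw [orthonormal_iff_ite]
      have hwv : inner ℂ w v = (0 : ℂ) := by rw [← inner_conj_symm, hvw.2.2, map_zero]
      have hv1 : inner ℂ v v = (1 : ℂ) := by
        rw [inner_self_eq_norm_sq_to_K, hvw.1]; simp
      have hw1 : inner ℂ w w = (1 : ℂ) := by
        rw [inner_self_eq_norm_sq_to_K, hvw.2.1]; simp
      rintro ⟨m, hm⟩ ⟨n, hn⟩
      rcases hm with rfl | hm <;> rcases hn with rfl | hn
      · simp [hvw.1]
      · obtain rfl : n = j := hn
        simp [hvw.2.2, hij, hij.symm]
      · obtain rfl : m = j := hm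
        simp [hwv, hij.symm]
      · obtain rfl : m = j := hm
        obtain rfl : n = m := hn
        simp [hvw.2.1, hij.symm])
  have hbi : bb i = v := by rw [hbb i (by simp)]; simp
  have hbj : bb j = w := by rw [hbb j (by simp)]; simp [hij.symm]
  obtain ⟨W, hWc, hWo, hW0, hW1⟩ := exists_path hb' bb.orthonormal
  have hC : Continuous fun t => cenL T l (W t) i j := by
    unfold cenL
    have h4 : Continuous fun t => FL T l (W t) := (continuous_FL T l).comp hWc
    have h5 : Continuous fun t => F T (W t i) := (continuous_F T).comp ((continuous_apply i).comp hWc)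
    have h6 : Continuous fun t => F T (W t j) := (continuous_F T).comp ((continuous_apply j).comp hWc)
    have h7 : Continuous fun t => cen T (W t i) (W t j) := (continuous_cen T i j).comp hWc
    exact ((h4.sub (h5.const_smul (l i))).sub (h6.const_smul (l j))).add
      (h7.const_smul (l i + l j))
  have hM : Continuous fun t => (l i - l j) • lin T (W t i) (W t j) := by
    have h4 : Continuous fun t => lin T (W t i) (W t j) := (continuous_lin T i j).comp hWc
    exact h4.const_smul (l i - l j)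
  have hne : ∀ t (n : Fin 3 → ℝ), n ⬝ᵥ n = 1 →
      cenL T l (W t) i j + ((l i - l j) • lin T (W t i) (W t j)) *ᵥ n ≠ 0 := by
    intro t n hn
    obtain ⟨b'', hb'', h4⟩ := hval (W t) (hWo t) n hn
    rw [h4]
    exact hcon b'' hb''
  obtain ⟨m, hm, hm0⟩ := aff_family hC hM hne ⟨n, hn, by rw [hW0]; exact hn0⟩ 1
  have hdet := aff_det (hne 1) hm hm0
  apply hdet
  apply Matrix.det_eq_zero_of_row_eq_zero 0
  intro c
  rw [hW1]
  simp only [hbi, hbj, Matrix.smul_apply, lin, smul_eq_mul]
  fin_cases c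
  · simp [hvw0]
  · simp [hvw0]
  · simp [hvwQ]

end

end Pool.Agent.W_9986fc_h13
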