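import Pool.Agent.W_9986fc_h13.Core

/-!
MP_9986fc_gt (helper13).  Three Hermitian operators of trace 0 on a complex inner product space of
dimension at least 3 have a common isotropic unit vector.
-/

set_option autoImplicit false

namespace Pool.Agent.W_9986fc_h13

open Matrix Complex

noncomputable section

variable {E : Type*} [NormedAddCommGroup E] [InnerProductSpace ℂ E]

theorem F_smul_re {T : Fin 3 → (E →ₗ[ℂ] E)} {v : E} {c : ℂ} (hc : ‖c‖ = 1) : F T (c • v) = F T v := by
  funext i
  simp only [F, Q, map_smul, inner_smul_left, inner_smul_right]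
  rw [← mul_assoc, mul_comm c, ← Complex.normSq_eq_conj_mul_self, Complex.normSq_eq_norm_sq, hc]
  simp

/-- change of the orthonormal frame of a 2-plane -/
theorem change_frame {T : Fin 3 → (E →ₗ[ℂ] E)} (hT : ∀ i, (T i).IsSymmetric) {v w : E} {a b : ℂ}
    (hab : ‖a‖ ^ 2 + ‖b‖ ^ 2 = 1) {n : Fin 3 → ℝ} (hn : n ⬝ᵥ n ≤ 1) (h0 : aff T v w n = 0) :
    ∃ m : Fin 3 → ℝ, m ⬝ᵥ m ≤ 1 ∧
      aff T (a • v + b • w) (-(star b) • v + star a • w) m = 0 := by
  -- `n` is on a chord
  obtain ⟨p, q, s, hp, hq, hs0, hs1, hn'⟩ : ∃ (p q : Fin 3 → ℝ) (s : ℝ), p ⬝ᵥ p = 1 ∧ q ⬝ᵥ q = 1 ∧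
      0 ≤ s ∧ s ≤ 1 ∧ n = (1 - s) • p + s • q := by
    obtain ⟨k, hk⟩ : ∃ k : Fin 3 → ℝ, k = e3 := ⟨_, rfl⟩
    have hk0 : k ≠ 0 := by
      intro h
      have := e3_dot
      rw [← hk, h] at this
      simp at this
    obtain ⟨τ, h1, h2⟩ := exists_tau hn hk0
    obtain ⟨τ', h1', h2'⟩ := exists_tau (k := -k) hn (neg_ne_zero.2 hk0)
    by_cases hz : τ + τ' = 0
    · have h3 : τ = 0 := by linarith
      rw [h3, zero_smul, add_zero] at h2
      exact ⟨n, n, 0, h2, h2, le_rfl, zero_le_one, by simp⟩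
    · have hpos : 0 < τ + τ' := lt_of_le_of_ne (by linarith) (Ne.symm hz)
      refine ⟨n + τ • k, n + τ' • -k, τ / (τ + τ'), h2, h2', by positivity, ?_, ?_⟩
      · rw [div_le_one hpos]; linarith
      · have e1 : 1 - τ / (τ + τ') = τ' / (τ + τ') := by field_simp; ring
        rw [e1]
        funext i
        simp only [Pi.add_apply, Pi.smul_apply, Pi.neg_apply, smul_eq_mul]
        field_simp
        ring
  obtain ⟨a1, b1, hab1, hbl1⟩ := bl_surj hp
  obtain ⟨a2, b2, hab2, hbl2⟩ := bl_surj hq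
  have hx1 : ∀ c d : ℂ, c • v + d • w = (c * star a + d * star b) • (a • v + b • w) +
      (-(c * b) + d * a) • (-(star b) • v + star a • w) := by
    intro c d
    have hn1 : star a * a + star b * b = 1 := by
      rw [Complex.star_def, ← Complex.normSq_eq_conj_mul_self,
        ← Complex.normSq_eq_conj_mul_self, Complex.normSq_eq_norm_sq, Complex.normSq_eq_norm_sq]
      exact_mod_cast hab
    simp only [smul_add, smul_smul, neg_smul, smul_neg, add_smul]
    have e1 : c • v = (c * (star a * a + star b * b)) • v := by rw [hn1, mul_one]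
    have e2 : d • w = (d * (star a * a + star b * b)) • w := by rw [hn1, mul_one]
    rw [e1, e2]
    module
  have hx2 : ∀ c d : ℂ, ‖c‖ ^ 2 + ‖d‖ ^ 2 = 1 →
      ‖c * star a + d * star b‖ ^ 2 + ‖-(c * b) + d * a‖ ^ 2 = 1 := by
    intro c d hcd
    have key : ‖c * star a + d * star b‖ ^ 2 + ‖-(c * b) + d * a‖ ^ 2 =
        (‖c‖ ^ 2 + ‖d‖ ^ 2) * (‖a‖ ^ 2 + ‖b‖ ^ 2) := by
      simp only [← Complex.normSq_eq_norm_sq, Complex.normSq_apply, Complex.add_re, Complex.add_im,
        Complex.mul_re, Complex.mul_im, Complex.neg_re, Complex.neg_im, Complex.star_def,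
        Complex.conj_re, Complex.conj_im]
      ring
    rw [key, hcd, hab, one_mul]
  set y := a • v + b • w with hy
  set y' := -(star b) • v + star a • w with hy'
  set m1 := bl (a1 * star a + b1 * star b) (-(a1 * b) + b1 * a)
  set m2 := bl (a2 * star a + b2 * star b) (-(a2 * b) + b2 * a)
  have h1 : aff T v w p = aff T y y' m1 := by
    rw [← hbl1, ← F_comb hT v w hab1, hx1 a1 b1, F_comb hT y y' (hx2 a1 b1 hab1)]
  have h2 : aff T v w q = aff T y y' m2 := by
    rw [← hbl2, ← F_comb hT v w hab2, hx1 a2 b2, F_comb hT y y' (hx2 a2 b2 hab2)]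
  have hconv : ∀ (v w : E) (p q : Fin 3 → ℝ), aff T v w ((1 - s) • p + s • q) =
      (1 - s) • aff T v w p + s • aff T v w q := by
    intro v w p q
    unfold aff
    rw [mulVec_add, mulVec_smul, mulVec_smul]
    funext i
    simp only [Pi.add_apply, Pi.smul_apply, smul_eq_mul]
    ring
  refine ⟨(1 - s) • m1 + s • m2, ?_, ?_⟩
  · have hm1 : m1 ⬝ᵥ m1 = 1 := bl_norm (hx2 a1 b1 hab1)
    have hm2 : m2 ⬝ᵥ m2 = 1 := bl_norm (hx2 a2 b2 hab2)
    have h3 : m1 ⬝ᵥ m2 ≤ 1 := by
      have := dot_nonneg (m1 - m2)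
      simp only [sub_dotProduct, dotProduct_sub, hm1, hm2, dotProduct_comm m2 m1] at this
      linarith
    simp only [add_dotProduct, dotProduct_add, smul_dotProduct, dotProduct_smul, smul_eq_mul, hm1,
      hm2, dotProduct_comm m2 m1]
    nlinarith [mul_nonneg hs0 (sub_nonneg.2 hs1)]
  · rw [hconv, ← h1, ← h2, ← hconv, ← hn', h0]

/-- Step 2: a plane with `0` inside and a vector orthogonal to it are impossible. -/
theorem no_inside [FiniteDimensional ℂ E] {T : Fin 3 → (E →ₗ[ℂ] E)} (hT : ∀ i, (T i).IsSymmetric)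
    (hne : ∀ u : E, ‖u‖ = 1 → F T u ≠ 0) {v w x : E} (h : Fr v w) (hx : ‖x‖ = 1)
    (hvx : inner ℂ v x = 0) (hwx : inner ℂ w x = 0) {n : Fin 3 → ℝ} (hn : n ⬝ᵥ n ≤ 1)
    (h0 : aff T v w n = 0) : False := by
  have hn1 := ball_lt hT hne h hn h0
  have hdet := det_ne hT hne h hn h0
  -- the direction of `F x`
  set k : Fin 3 → ℝ := (lin T v w)⁻¹ *ᵥ F T x with hk
  have hk1 : lin T v w *ᵥ k = F T x := by
    rw [hk, mulVec_mulVec, Matrix.mul_nonsing_inv _ (isUnit_iff_ne_zero.2 hdet), one_mulVec]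
  have hk0 : k ≠ 0 := by
    intro h3
    rw [h3, mulVec_zero] at hk1
    exact hne x hx hk1.symm
  obtain ⟨τ, hτ0, hτ⟩ := exists_tau hn hk0
  have hτpos : 0 < τ := by
    rcases hτ0.lt_or_eq with h3 | h3
    · exact h3
    · rw [← h3, zero_smul, add_zero] at hτ
      linarith
  obtain ⟨a, b, hab, -, hu, he⟩ := aff_sphere hT h hτ
  rw [aff_add, h0, hk1, zero_add] at he
  obtain ⟨m, hm, hm0⟩ := change_frame hT hab hn h0
  set y := a • v + b • w with hy
  set y' := -(star b) • v + star a • w with hy'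
  have hab' : ‖-(star b)‖ ^ 2 + ‖star a‖ ^ 2 = 1 := by
    rw [norm_neg, norm_star, norm_star]; linarith
  have hy'1 : ‖y'‖ = 1 := norm_comb h hab'
  have hv1 : inner ℂ v v = (1 : ℂ) := by
    rw [inner_self_eq_norm_sq_to_K, h.1]; simp
  have hw1 : inner ℂ w w = (1 : ℂ) := by
    rw [inner_self_eq_norm_sq_to_K, h.2.1]; simp
  have hwv : inner ℂ w v = (0 : ℂ) := by
    rw [← inner_conj_symm, h.2.2, map_zero]
  have hyy' : inner ℂ y y' = 0 := by
    simp only [hy, hy', inner_add_left, inner_add_right, inner_smul_left, inner_smul_right, hv1,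
      hw1, hwv, h.2.2, Complex.star_def]
    ring
  have hyx : inner ℂ y x = 0 := by
    simp only [hy, inner_add_left, inner_smul_left, hvx, hwx, mul_zero, add_zero]
  have hy'x : inner ℂ y' x = 0 := by
    simp only [hy', inner_add_left, inner_smul_left, hvx, hwx, mul_zero, add_zero]
  -- the path
  let W : ℝ → E := fun t => (Real.cos t : ℂ) • y' + (Real.sin t : ℂ) • x
  have hWfr : ∀ t, Fr y (W t) := by
    intro t
    refine ⟨hu, ?_, ?_⟩
    · apply norm_comb ⟨hy'1, hx, hy'x⟩
      rw [Complex.norm_real, Complex.norm_real, Real.norm_eq_abs, Real.norm_eq_abs, sq_abs, sq_abs]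
      exact Real.cos_sq_add_sin_sq t
    · simp only [W, inner_add_right, inner_smul_right, hyy', hyx, mul_zero, add_zero]
  have hWc : Continuous W := by
    have h1 : Continuous fun t : ℝ => (Real.cos t : ℂ) :=
      Complex.continuous_ofReal.comp Real.continuous_cos
    have h2 : Continuous fun t : ℝ => (Real.sin t : ℂ) :=
      Complex.continuous_ofReal.comp Real.continuous_sin
    exact (h1.smul continuous_const).add (h2.smul continuous_const)
  have hTc : ∀ i, Continuous (T i) := fun i => LinearMap.continuous_of_finiteDimensional _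
  have hQc : ∀ i, Continuous fun t => Q (T i) (W t) := by
    intro i
    unfold Q
    exact Complex.continuous_re.comp (hWc.inner ((hTc i).comp hWc))
  have hcen : Continuous fun t => cen T y (W t) := by
    unfold cen
    refine continuous_pi fun i => ?_
    exact (continuous_const.add (hQc i)).div_const 2
  have hlin : Continuous fun t => lin T y (W t) := by
    have hi : ∀ i, Continuous fun t => inner ℂ y (T i (W t)) :=
      fun i => continuous_const.inner ((hTc i).comp hWc)
    refine continuous_matrix fun i j => ?_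
    fin_cases j
    · exact Complex.continuous_re.comp (hi i)
    · exact (Complex.continuous_im.comp (hi i)).neg
    · exact (continuous_const.sub (hQc i)).div_const 2
  let C : Set ℝ := {t | ∃ n : Fin 3 → ℝ, n ⬝ᵥ n ≤ 1 ∧ aff T y (W t) n = 0}
  have hC0 : (0 : ℝ) ∈ C := by
    refine ⟨m, hm, ?_⟩
    have : W 0 = y' := by simp [W]
    rw [this]
    exact hm0
  have hclosed : IsClosed C := by
    have : CompactSpace {n : Fin 3 → ℝ | n ⬝ᵥ n ≤ 1} := isCompact_iff_compactSpace.1 isCompact_ball3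
    have h1 : IsClosed {p : ℝ × {n : Fin 3 → ℝ | n ⬝ᵥ n ≤ 1} | aff T y (W p.1) (p.2 : Fin 3 → ℝ) = 0} := by
      apply isClosed_eq _ continuous_const
      unfold aff
      exact (hcen.comp continuous_fst).add (Continuous.matrix_mulVec (hlin.comp continuous_fst)
        (continuous_subtype_val.comp continuous_snd))
    have h2 := isClosedMap_fst_of_compactSpace _ h1
    convert h2 using 1
    ext t
    constructor
    · rintro ⟨n, hn, h3⟩
      exact ⟨(t, ⟨n, hn⟩), h3, rfl⟩
    · rintro ⟨⟨t', n, hn⟩, h3, rfl⟩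
      exact ⟨n, hn, h3⟩
  have hopen : IsOpen C := by
    rw [isOpen_iff_mem_nhds]
    rintro t ⟨n, hn, h3⟩
    have hd := det_ne hT hne (hWfr t) hn h3
    have hlt := ball_lt hT hne (hWfr t) hn h3
    let N : ℝ → (Fin 3 → ℝ) := fun s =>
      -((lin T y (W s)).det⁻¹ • ((lin T y (W s)).adjugate *ᵥ cen T y (W s)))
    have hN : ∀ s, (lin T y (W s)).det ≠ 0 → aff T y (W s) (N s) = 0 := by
      intro s hs
      unfold aff
      simp only [N]
      rw [mulVec_neg, mulVec_smul, mulVec_mulVec, Matrix.mul_adjugate, smul_mulVec, one_mulVec,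
        smul_smul, inv_mul_cancel₀ hs, one_smul, add_neg_cancel]
    have hNt : N t = n := by
      have h4 := hN t hd
      have h5 : lin T y (W t) *ᵥ (N t - n) = 0 := by
        rw [mulVec_sub]
        unfold aff at h3 h4
        rw [eq_neg_of_add_eq_zero_right h4, eq_neg_of_add_eq_zero_right h3, sub_self]
      exact sub_eq_zero.1 (lin_inj hT hne (hWfr t) hn h3 h5)
    have hdc : Continuous fun s => (lin T y (W s)).det := hlin.matrix_det
    have hNc : ContinuousAt N t := by
      have h8 : ContinuousAt (fun s => (lin T y (W s)).det⁻¹) t := hdc.continuousAt.inv₀ hd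
      have h9 : ContinuousAt (fun s => (lin T y (W s)).adjugate *ᵥ cen T y (W s)) t :=
        (Continuous.matrix_mulVec hlin.matrix_adjugate hcen).continuousAt
      exact (h8.smul h9).neg
    have hNd : ContinuousAt (fun s => N s ⬝ᵥ N s) t := by
      have h6 : Continuous fun p : Fin 3 → ℝ => p ⬝ᵥ p := continuous_id.dotProduct continuous_id
      exact h6.continuousAt.comp hNc
    have h7 : N t ⬝ᵥ N t < 1 := by rw [hNt]; exact hlt
    filter_upwards [hNd.eventually (gt_mem_nhds h7), hdc.continuousAt.eventually_ne hd] with s hs1 hs2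
    exact ⟨N s, hs1.le, hN s hs2⟩
  have huniv : C = Set.univ := by
    rcases isClopen_iff.1 (⟨hclosed, hopen⟩ : IsClopen C) with h1 | h1
    · rw [h1] at hC0
      exact absurd hC0 (Set.notMem_empty _)
    · exact h1
  obtain ⟨n1, hn1', h4⟩ : (Real.pi / 2) ∈ C := by rw [huniv]; trivial
  have hWx : W (Real.pi / 2) = x := by simp [W]
  rw [hWx] at h4
  have hfr : Fr y x := ⟨hu, hx, hyx⟩
  have e1 : aff T y x e3 = τ • aff T y x (-e3) := by
    rw [aff_e3 hT, aff_neg_e3 hT, ← he]
  have h5 : lin T y x *ᵥ ((1 + τ) • e3 - (1 - τ) • n1) = 0 := by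
    have h6 : cen T y x = -(lin T y x *ᵥ n1) := by
      unfold aff at h4
      exact eq_neg_of_add_eq_zero_left h4
    unfold aff at e1
    rw [h6, mulVec_neg] at e1
    rw [mulVec_sub, mulVec_smul, mulVec_smul]
    funext i
    have h7 := congrFun e1 i
    simp only [Pi.add_apply, Pi.smul_apply, Pi.neg_apply, smul_eq_mul, Pi.sub_apply,
      Pi.zero_apply] at h7 ⊢
    linarith
  have h6 := sub_eq_zero.1 (lin_inj hT hne hfr hn1' h4 h5)
  have h7 : ((1 + τ) • e3) ⬝ᵥ ((1 + τ) • e3) = ((1 - τ) • n1) ⬝ᵥ ((1 - τ) • n1) := by rw [h6]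
  simp only [smul_dotProduct, dotProduct_smul, smul_eq_mul, e3_dot, mul_one] at h7
  have h8 : (1 - τ) * ((1 - τ) * (n1 ⬝ᵥ n1)) ≤ (1 - τ) * (1 - τ) := by
    have := mul_le_mul_of_nonneg_left hn1' (mul_self_nonneg (1 - τ))
    linarith
  nlinarith

/-- Three Hermitian operators of trace `0` on a complex inner product space of dimension at least `3`
have a common isotropic unit vector. -/
theorem exists_isotropic [FiniteDimensional ℂ E] (hE : 3 ≤ Module.finrank ℂ E)
    (T : Fin 3 → (E →ₗ[ℂ] E)) (hT : ∀ i, (T i).IsSymmetric)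
    (htr : ∀ i, LinearMap.trace ℂ E (T i) = 0) :
    ∃ v : E, ‖v‖ = 1 ∧ ∀ i, (inner ℂ v (T i v) : ℂ) = 0 := by
  by_contra hcon
  push Not at hcon
  have hne : ∀ u : E, ‖u‖ = 1 → F T u ≠ 0 := by
    intro u hu h
    obtain ⟨i, hi⟩ := hcon u hu
    apply hi
    have h1 := congrFun h i
    simp only [F, Q, Pi.zero_apply] at h1
    have h2 : (inner ℂ u (T i u)).im = 0 := by
      have := inner_conj_symm (𝕜 := ℂ) (T i u) u
      rw [hT i u u] at this
      exact Complex.conj_eq_iff_im.1 this
    exact Complex.ext h1 h2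
  have : Nontrivial E := Module.nontrivial_of_finrank_pos (R := ℂ) (by omega)
  have hTc : ∀ i, Continuous (T i) := fun i => LinearMap.continuous_of_finiteDimensional _
  have hFc : Continuous fun u : E => F T u ⬝ᵥ F T u := by
    have h1 : Continuous fun u : E => F T u := by
      refine continuous_pi fun i => ?_
      unfold F Q
      exact Complex.continuous_re.comp (continuous_id.inner (hTc i))
    exact h1.dotProduct h1
  have : ProperSpace E := FiniteDimensional.proper ℂ E
  obtain ⟨v, hv, hvmin⟩ := (isCompact_sphere (0 : E) 1).exists_isMinOn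
    (f := fun u => F T u ⬝ᵥ F T u) (Set.nonempty_coe_sort.1
      (NormedSpace.sphere_nonempty_rclike ℂ zero_le_one)) hFc.continuousOn
  have hv1 : ‖v‖ = 1 := by simpa using hv
  have hmin : ∀ u : E, ‖u‖ = 1 → F T v ⬝ᵥ F T v ≤ F T u ⬝ᵥ F T u := by
    intro u hu
    exact hvmin (show u ∈ Metric.sphere (0 : E) 1 by simpa using hu)
  -- an orthonormal basis containing `v`
  obtain ⟨b, hb⟩ := Orthonormal.exists_orthonormalBasis_extension_of_card_eq (𝕜 := ℂ) (E := E)
    (ι := Fin (Module.finrank ℂ E)) (by simp) (v := fun _ => v) (s := {⟨0, by omega⟩}) (by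
      constructor
      · intro i
        simpa using hv1
      · intro i j hij
        exact absurd (Subsingleton.elim i j) hij)
  have hb0 : b ⟨0, by omega⟩ = v := hb _ rfl
  have hsum : ∀ i, ∑ j, Q (T i) (b j) = 0 := by
    intro i
    have h1 := LinearMap.trace_eq_sum_inner (T i) b
    rw [htr i] at h1
    have h2 := congrArg Complex.re h1
    rw [Complex.zero_re, Complex.re_sum] at h2
    exact h2.symm
  have hsum2 : ∑ j, F T v ⬝ᵥ F T (b j) = 0 := by
    unfold dotProduct
    rw [Finset.sum_comm]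
    apply Finset.sum_eq_zero
    intro i _
    rw [← Finset.mul_sum]
    have := hsum i
    simp only [F]
    rw [this, mul_zero]
  obtain ⟨j, hj⟩ : ∃ j, F T v ⬝ᵥ F T (b j) < 0 := by
    by_contra h
    push Not at h
    have h1 := (Finset.sum_eq_zero_iff_of_nonneg (fun j _ => h j)).1 hsum2 ⟨0, by omega⟩
      (Finset.mem_univ _)
    rw [hb0] at h1
    exact (dot_pos (hne v hv1)).ne' h1
  have hj0 : (⟨0, by omega⟩ : Fin (Module.finrank ℂ E)) ≠ j := by
    rintro rfl
    rw [hb0] at hj
    exact absurd hj (not_lt.2 (dot_nonneg _))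
  have hfr : Fr v (b j) := by
    refine ⟨hv1, b.orthonormal.1 j, ?_⟩
    rw [← hb0]
    exact b.orthonormal.2 hj0
  obtain ⟨n, hn, h0⟩ := exists_inside hT hfr (hne v hv1) hmin hj
  -- a third index
  obtain ⟨l, hl0, hlj⟩ : ∃ l : Fin (Module.finrank ℂ E), l ≠ ⟨0, by omega⟩ ∧ l ≠ j := by
    by_contra h
    push Not at h
    have hcard : (Finset.univ : Finset (Fin (Module.finrank ℂ E))).card ≤ 2 := by
      have hsub : (Finset.univ : Finset (Fin (Module.finrank ℂ E))) ⊆ {⟨0, by omega⟩, j} := by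
        intro l _
        by_cases h1 : l = ⟨0, by omega⟩
        · simp [h1]
        · simp [h l h1]
      exact (Finset.card_le_card hsub).trans Finset.card_le_two
    rw [Finset.card_univ, Fintype.card_fin] at hcard
    omega
  refine no_inside hT hne hfr (b.orthonormal.1 l) ?_ ?_ hn h0
  · rw [← hb0]
    exact b.orthonormal.2 (Ne.symm hl0)
  · exact b.orthonormal.2 (Ne.symm hlj)

end

end Pool.Agent.W_9986fc_h13
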