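import Pool.Agent.W_9986fc_h13.Iso

/-!
MP_9986fc_gt (helper13).  The `k`-plane version of the isotropic vector lemma.
-/

set_option autoImplicit false

namespace Pool.Agent.W_9986fc_h13

noncomputable section

universe u

/-- compression to the orthogonal complement of `v` -/
def compr {E : Type u} [NormedAddCommGroup E] [InnerProductSpace ℂ E] [FiniteDimensional ℂ E] (v : E)
    (T : E →ₗ[ℂ] E) : (ℂ ∙ v)ᗮ →ₗ[ℂ] (ℂ ∙ v)ᗮ :=
  ((ℂ ∙ v)ᗮ.orthogonalProjection : E →ₗ[ℂ] (ℂ ∙ v)ᗮ) ∘ₗ T ∘ₗ (ℂ ∙ v)ᗮ.subtype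

section

variable {E : Type u} [NormedAddCommGroup E] [InnerProductSpace ℂ E] [FiniteDimensional ℂ E]

theorem inner_compr (v : E) (T : E →ₗ[ℂ] E) (x y : (ℂ ∙ v)ᗮ) :
    inner ℂ x (compr v T y) = inner ℂ (x : E) (T y) := by
  unfold compr
  simp only [LinearMap.comp_apply, Submodule.subtype_apply]
  exact Submodule.inner_orthogonalProjection_eq_of_mem_left x (T y)

theorem compr_symm (v : E) {T : E →ₗ[ℂ] E} (hT : T.IsSymmetric) : (compr v T).IsSymmetric := by
  intro x y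
  rw [← inner_conj_symm, inner_compr, inner_compr, inner_conj_symm]
  exact hT x y

theorem trace_compr {v : E} (hv : ‖v‖ = 1) (T : E →ₗ[ℂ] E) (hTv : inner ℂ v (T v) = (0 : ℂ)) :
    LinearMap.trace ℂ _ (compr v T) = LinearMap.trace ℂ E T := by
  unfold compr
  rw [← LinearMap.comp_assoc, LinearMap.trace_comp_comm']
  have h1 : (ℂ ∙ v)ᗮ.subtype ∘ₗ ((ℂ ∙ v)ᗮ.orthogonalProjection : E →ₗ[ℂ] (ℂ ∙ v)ᗮ) ∘ₗ T =
      T - LinearMap.toSpanSingleton ℂ E v ∘ₗ ((innerSL ℂ v : E →L[ℂ] ℂ) : E →ₗ[ℂ] ℂ) ∘ₗ T := by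
    ext x
    simp only [LinearMap.comp_apply, Submodule.subtype_apply, LinearMap.sub_apply,
      LinearMap.toSpanSingleton_apply]
    have h2 : ((ℂ ∙ v)ᗮ.orthogonalProjection (T x) : E) = T x - (inner ℂ v (T x) : ℂ) • v := by
      have h3 := Submodule.starProjection_orthogonal_val (K := (ℂ ∙ v)) (T x)
      rw [Submodule.starProjection_unit_singleton ℂ hv] at h3
      exact h3
    exact h2
  rw [h1, map_sub, LinearMap.trace_comp_comm']
  have h3 : (((innerSL ℂ v : E →L[ℂ] ℂ) : E →ₗ[ℂ] ℂ) ∘ₗ T) ∘ₗ LinearMap.toSpanSingleton ℂ E v = 0 := by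
    ext
    simpa using hTv
  rw [h3, map_zero, sub_zero]

end

/-- `k` orthonormal common isotropic vectors, `k + 2 ≤ dim E`. -/
theorem exists_family (k : ℕ) : ∀ (E : Type u) [NormedAddCommGroup E] [InnerProductSpace ℂ E]
    [FiniteDimensional ℂ E] (_ : k + 2 ≤ Module.finrank ℂ E) (T : Fin 3 → (E →ₗ[ℂ] E))
    (_ : ∀ i, (T i).IsSymmetric) (_ : ∀ i, LinearMap.trace ℂ E (T i) = 0),
    ∃ w : Fin k → E, Orthonormal ℂ w ∧ ∀ i j, (inner ℂ (w j) (T i (w j)) : ℂ) = 0 := by
  induction k with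
  | zero =>
    intro E _ _ _ _ T _ _
    exact ⟨Fin.elim0, ⟨fun i => i.elim0, fun i => i.elim0⟩, fun _ j => j.elim0⟩
  | succ k ih =>
    intro E _ _ _ hE T hT htr
    obtain ⟨v, hv, hTv⟩ := exists_isotropic (by omega) T hT htr
    have hv0 : v ≠ 0 := by
      rintro rfl
      simp at hv
    have hdim : Module.finrank ℂ (ℂ ∙ v)ᗮ + 1 = Module.finrank ℂ E := by
      have h1 := (ℂ ∙ v).finrank_add_finrank_orthogonal
      rw [finrank_span_singleton hv0] at h1
      omega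
    obtain ⟨w, hw, hw0⟩ := ih (ℂ ∙ v)ᗮ (by omega) (fun i => compr v (T i))
      (fun i => compr_symm v (hT i)) (fun i => by rw [trace_compr hv _ (hTv i), htr i])
    have hvw : ∀ j, inner ℂ v ((w j : (ℂ ∙ v)ᗮ) : E) = (0 : ℂ) := fun j =>
      Submodule.mem_orthogonal_singleton_iff_inner_right.1 (w j).2
    refine ⟨Fin.cons v fun j => (w j : E), ?_, ?_⟩
    · rw [orthonormal_iff_ite]
      intro i j
      refine Fin.cases ?_ (fun i => ?_) i <;> refine Fin.cases ?_ (fun j => ?_) j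
      · simp [inner_self_eq_norm_sq_to_K, hv]
      · simp [hvw j, Ne.symm (Fin.succ_ne_zero j)]
      · have := hvw i
        rw [← inner_conj_symm, map_eq_zero] at this
        simp [this, Fin.succ_ne_zero]
      · have h2 := orthonormal_iff_ite.1 hw i j
        simp only [Fin.cons_succ, Fin.succ_inj]
        exact h2
    · intro i j
      refine Fin.cases ?_ (fun j => ?_) j
      · exact hTv i
      · have h2 := hw0 i j
        rw [inner_compr] at h2
        exact h2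

/-- A `k`-plane with three vanishing traces, `1 ≤ k < dim E`, `3 ≤ dim E`. -/
theorem exists_plane {E : Type u} [NormedAddCommGroup E] [InnerProductSpace ℂ E]
    [FiniteDimensional ℂ E] (hE : 3 ≤ Module.finrank ℂ E) {k : ℕ} (hk : k + 1 ≤ Module.finrank ℂ E)
    (T : Fin 3 → (E →ₗ[ℂ] E)) (hT : ∀ i, (T i).IsSymmetric)
    (htr : ∀ i, LinearMap.trace ℂ E (T i) = 0) :
    ∃ w : Fin k → E, Orthonormal ℂ w ∧ ∀ i, ∑ j, (inner ℂ (w j) (T i (w j)) : ℂ) = 0 := by
  by_cases hk2 : k + 2 ≤ Module.finrank ℂ E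
  · obtain ⟨w, hw, hw0⟩ := exists_family k E hk2 T hT htr
    exact ⟨w, hw, fun i => Finset.sum_eq_zero fun j _ => hw0 i j⟩
  · have hk3 : Module.finrank ℂ E = k + 1 := by omega
    obtain ⟨v, hv, hTv⟩ := exists_isotropic hE T hT htr
    obtain ⟨b, hb⟩ := Orthonormal.exists_orthonormalBasis_extension_of_card_eq (𝕜 := ℂ) (E := E)
      (ι := Fin (k + 1)) (by simp [hk3]) (v := fun _ => v) (s := {0}) (by
        constructor
        · intro i
          simpa using hv
        · intro i j hij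
          exact absurd (Subsingleton.elim i j) hij)
    have hb0 : b 0 = v := hb _ rfl
    refine ⟨fun j => b j.succ, b.orthonormal.comp _ (Fin.succ_injective _), fun i => ?_⟩
    have h1 := LinearMap.trace_eq_sum_inner (T i) b
    rw [htr i, Fin.sum_univ_succ, hb0, hTv i, zero_add] at h1
    exact h1.symm

end

end Pool.Agent.W_9986fc_h13
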