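import Pool.Agent.W_9986fc_h13.Plane
import Pool.Agent.W_9986fc_h13.Conn

/-!
MP_9986fc_gt (helper13).  Part R3 of the theorem on coupling forms: rigidity in rank at least 3.
`P` is a Hermitian projection of rank `N ≥ 3` of `ℂ^K`, `M i j` are Hermitian matrices; if the 2-forms
`(tr (M i j Q))_{ij}` on `ℝ^4` are nondegenerate for all projections `Q ≤ P` of rank `k`, `1 ≤ k < N`,
then so is `(tr (M i j P))_{ij}`.
-/

set_option autoImplicit false

namespace Pool.Agent.W_9986fc_h13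

open Matrix

noncomputable section

variable {K : ℕ}

/-- Pfaffian -/
def pf (w : Fin 4 → Fin 4 → ℝ) : ℝ := w 0 1 * w 2 3 - w 0 2 * w 1 3 + w 0 3 * w 1 2

/-- projections of rank `k` below `P` -/
def Gr (P : Matrix (Fin K) (Fin K) ℂ) (k : ℕ) : Set (Matrix (Fin K) (Fin K) ℂ) :=
  {Q | Qᴴ = Q ∧ Q * Q = Q ∧ Q.trace = k ∧ P * Q = Q}

/-- the array `tr (M i j Q)` -/
def arr (M : Fin 4 → Fin 4 → Matrix (Fin K) (Fin K) ℂ) (Q : Matrix (Fin K) (Fin K) ℂ) :
    Fin 4 → Fin 4 → ℝ := fun i j => ((M i j * Q).trace).re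

/-- the linear map of a matrix -/
def act (H : Matrix (Fin K) (Fin K) ℂ) :
    EuclideanSpace ℂ (Fin K) →ₗ[ℂ] EuclideanSpace ℂ (Fin K) := Matrix.toLpLin 2 2 H

theorem act_apply (H : Matrix (Fin K) (Fin K) ℂ) (x : EuclideanSpace ℂ (Fin K)) :
    (act H x).ofLp = H *ᵥ x.ofLp := by
  unfold act
  rw [Matrix.toLpLin_apply]

theorem inner_act (H : Matrix (Fin K) (Fin K) ℂ) (x y : EuclideanSpace ℂ (Fin K)) :
    inner ℂ x (act H y) = star x.ofLp ⬝ᵥ H *ᵥ y.ofLp := by
  rw [EuclideanSpace.inner_eq_star_dotProduct, act_apply, dotProduct_comm]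

theorem act_symm {H : Matrix (Fin K) (Fin K) ℂ} (hH : Hᴴ = H) (x y : EuclideanSpace ℂ (Fin K)) :
    inner ℂ (act H x) y = (inner ℂ x (act H y) : ℂ) := by
  rw [inner_act, EuclideanSpace.inner_eq_star_dotProduct, act_apply, star_mulVec, hH,
    dotProduct_comm, dotProduct_mulVec]

/-- the image of a projection -/
def im (P : Matrix (Fin K) (Fin K) ℂ) : Submodule ℂ (EuclideanSpace ℂ (Fin K)) :=
  LinearMap.range (act P)

theorem act_act (A B : Matrix (Fin K) (Fin K) ℂ) (x : EuclideanSpace ℂ (Fin K)) :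
    act A (act B x) = act (A * B) x := by
  apply (WithLp.equiv 2 (Fin K → ℂ)).injective
  change (act A (act B x)).ofLp = (act (A * B) x).ofLp
  rw [act_apply, act_apply, act_apply, mulVec_mulVec]

theorem act_mem {P : Matrix (Fin K) (Fin K) ℂ} (hPP : P * P = P) {x : EuclideanSpace ℂ (Fin K)}
    (hx : x ∈ im P) : act P x = x := by
  obtain ⟨y, rfl⟩ := hx
  rw [act_act, hPP]

/-- compression of a matrix to `im P` -/
def cmp (P H : Matrix (Fin K) (Fin K) ℂ) : im P →ₗ[ℂ] im P :=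
  ((im P).orthogonalProjectionOnto : EuclideanSpace ℂ (Fin K) →ₗ[ℂ] im P) ∘ₗ act H ∘ₗ (im P).subtype

theorem inner_cmp (P H : Matrix (Fin K) (Fin K) ℂ) (x y : im P) :
    inner ℂ x (cmp P H y) = inner ℂ (x : EuclideanSpace ℂ (Fin K)) (act H y) := by
  unfold cmp
  simp only [LinearMap.comp_apply, Submodule.subtype_apply]
  exact Submodule.inner_orthogonalProjectionOnto_eq_of_mem_left x _

theorem cmp_symm (P : Matrix (Fin K) (Fin K) ℂ) {H : Matrix (Fin K) (Fin K) ℂ} (hH : Hᴴ = H) :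
    LinearMap.IsSymmetric (𝕜 := ℂ) (E := im P) (cmp P H) := by
  intro x y
  rw [← inner_conj_symm, inner_cmp, inner_cmp, inner_conj_symm]
  exact act_symm hH _ _

/-- the sum of the projections onto the lines of `w j` -/
def Qw {k : ℕ} {P : Matrix (Fin K) (Fin K) ℂ} (w : Fin k → im P) : Matrix (Fin K) (Fin K) ℂ :=
  ∑ j, vecMulVec (w j : EuclideanSpace ℂ (Fin K)).ofLp
    (star (w j : EuclideanSpace ℂ (Fin K)).ofLp)

theorem trace_Qw {k : ℕ} {P : Matrix (Fin K) (Fin K) ℂ} (w : Fin k → im P)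
    (H : Matrix (Fin K) (Fin K) ℂ) : (H * Qw w).trace = ∑ j, (inner ℂ (w j) (cmp P H (w j)) : ℂ) := by
  unfold Qw
  rw [Finset.mul_sum, Matrix.trace_sum]
  refine Finset.sum_congr rfl fun j _ => ?_
  rw [inner_cmp, inner_act, Matrix.mul_vecMulVec, Matrix.trace_vecMulVec, dotProduct_comm]

theorem star_dot {P : Matrix (Fin K) (Fin K) ℂ} (x y : im P) :
    star (x : EuclideanSpace ℂ (Fin K)).ofLp ⬝ᵥ (y : EuclideanSpace ℂ (Fin K)).ofLp =
      (inner ℂ x y : ℂ) := by
  rw [dotProduct_comm, ← EuclideanSpace.inner_eq_star_dotProduct]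
  rfl

theorem Qw_mem {k : ℕ} {P : Matrix (Fin K) (Fin K) ℂ} (hPP : P * P = P) {w : Fin k → im P}
    (hw : Orthonormal ℂ w) : Qw w ∈ Gr P k := by
  refine ⟨?_, ?_, ?_, ?_⟩
  · unfold Qw
    rw [conjTranspose_sum]
    refine Finset.sum_congr rfl fun j _ => ?_
    rw [conjTranspose_vecMulVec, star_star]
  · unfold Qw
    rw [Finset.sum_mul_sum]
    refine Finset.sum_congr rfl fun i _ => ?_
    rw [Finset.sum_eq_single i]
    · rw [vecMulVec_mul_vecMulVec, star_dot, orthonormal_iff_ite.1 hw, if_pos rfl, one_smul]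
    · intro j _ hj
      rw [vecMulVec_mul_vecMulVec, star_dot, orthonormal_iff_ite.1 hw, if_neg (Ne.symm hj), zero_smul,
        vecMulVec_zero]
    · intro h
      exact absurd (Finset.mem_univ _) h
  · unfold Qw
    rw [Matrix.trace_sum]
    have : ∀ j, (vecMulVec (w j : EuclideanSpace ℂ (Fin K)).ofLp
        (star (w j : EuclideanSpace ℂ (Fin K)).ofLp)).trace = 1 := by
      intro j
      rw [Matrix.trace_vecMulVec, dotProduct_comm, star_dot, orthonormal_iff_ite.1 hw, if_pos rfl]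
    simp [this]
  · unfold Qw
    rw [Finset.mul_sum]
    refine Finset.sum_congr rfl fun j _ => ?_
    rw [Matrix.mul_vecMulVec, ← act_apply, act_mem hPP (w j).2]

theorem Qw_basis {P : Matrix (Fin K) (Fin K) ℂ} (hP : Pᴴ = P) (hPP : P * P = P) {n : ℕ}
    (b : OrthonormalBasis (Fin n) ℂ (im P)) : Qw (fun j => b j) = P := by
  apply Matrix.ext_of_mulVec_single
  intro i
  set y : EuclideanSpace ℂ (Fin K) := WithLp.toLp 2 (Pi.single i 1) with hy
  have hy' : (Pi.single i 1 : Fin K → ℂ) = y.ofLp := rfl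
  rw [hy', ← act_apply, ← act_apply]
  congr 1
  have hmem : act P y ∈ im P := ⟨y, rfl⟩
  have h1 := b.sum_repr' ⟨act P y, hmem⟩
  have h2 := congrArg (fun z : im P => (z : EuclideanSpace ℂ (Fin K))) h1
  simp only [Submodule.coe_sum, Submodule.coe_smul] at h2
  rw [← h2]
  apply (WithLp.equiv 2 (Fin K → ℂ)).injective
  change (act (Qw fun j => b j) y).ofLp = _
  rw [act_apply]
  unfold Qw
  rw [Matrix.sum_mulVec]
  change _ = (∑ j, (inner ℂ (b j) (⟨act P y, hmem⟩ : im P) : ℂ) •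
    (b j : EuclideanSpace ℂ (Fin K))).ofLp
  rw [WithLp.ofLp_sum]
  refine Finset.sum_congr rfl fun j _ => ?_
  rw [vecMulVec_mulVec, WithLp.ofLp_smul]
  have h3 : (inner ℂ (b j) (⟨act P y, hmem⟩ : im P) : ℂ) =
      star (b j : EuclideanSpace ℂ (Fin K)).ofLp ⬝ᵥ y.ofLp := by
    change (inner ℂ (b j : EuclideanSpace ℂ (Fin K)) (act P y) : ℂ) = _
    rw [← act_symm hP, act_mem hPP (b j).2, EuclideanSpace.inner_eq_star_dotProduct,
      dotProduct_comm]
  rw [h3]
  ext a
  simp [mul_comm]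

theorem finrank_im {P : Matrix (Fin K) (Fin K) ℂ} (hP : Pᴴ = P) (hPP : P * P = P) {N : ℕ}
    (hN : P.trace = N) : Module.finrank ℂ (im P) = N := by
  let b := stdOrthonormalBasis ℂ (im P)
  have h1 := Qw_mem hPP b.orthonormal
  have h2 := h1.2.2.1
  have h3 : Qw (⇑b) = P := Qw_basis hP hPP b
  rw [h3, hN] at h2
  exact_mod_cast h2.symm

theorem trace_cmp {P : Matrix (Fin K) (Fin K) ℂ} (hP : Pᴴ = P) (hPP : P * P = P)
    (H : Matrix (Fin K) (Fin K) ℂ) : LinearMap.trace ℂ _ (cmp P H) = (H * P).trace := by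
  let b := stdOrthonormalBasis ℂ (im P)
  rw [LinearMap.trace_eq_sum_inner _ b]
  have h3 : Qw (⇑b) = P := Qw_basis hP hPP b
  conv_rhs => rw [← h3]
  rw [trace_Qw]

/-- real part of the trace -/
def val (H Q : Matrix (Fin K) (Fin K) ℂ) : ℝ := ((H * Q).trace).re

theorem val_add (A B Q : Matrix (Fin K) (Fin K) ℂ) : val (A + B) Q = val A Q + val B Q := by
  unfold val
  rw [add_mul, trace_add, Complex.add_re]

theorem val_sub (A B Q : Matrix (Fin K) (Fin K) ℂ) : val (A - B) Q = val A Q - val B Q := by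
  unfold val
  rw [sub_mul, trace_sub, Complex.sub_re]

theorem val_smul (t : ℝ) (A Q : Matrix (Fin K) (Fin K) ℂ) : val ((t : ℂ) • A) Q = t * val A Q := by
  unfold val
  rw [smul_mul_assoc, trace_smul, smul_eq_mul, Complex.re_ofReal_mul]

theorem im_trace {H Q : Matrix (Fin K) (Fin K) ℂ} (hH : Hᴴ = H) (hQ : Qᴴ = Q) :
    ((H * Q).trace).im = 0 := by
  have h1 : star (H * Q).trace = (H * Q).trace := by
    rw [← trace_conjTranspose, conjTranspose_mul, hH, hQ, trace_mul_comm]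
  exact Complex.conj_eq_iff_im.1 h1

theorem isHerm_smul {A : Matrix (Fin K) (Fin K) ℂ} (hA : Aᴴ = A) (t : ℝ) :
    ((t : ℂ) • A)ᴴ = (t : ℂ) • A := by
  rw [conjTranspose_smul, hA, Complex.star_def, Complex.conj_ofReal]

/-- three Hermitian matrices with `tr (H i P) = 0` have a common isotropic `k`-plane below `P` -/
theorem exists_Qw {P : Matrix (Fin K) (Fin K) ℂ} (hP : Pᴴ = P) (hPP : P * P = P) {N k : ℕ}
    (hN : P.trace = N) (h3 : 3 ≤ N) (hk : k < N) (H : Fin 3 → Matrix (Fin K) (Fin K) ℂ)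
    (hH : ∀ i, (H i)ᴴ = H i) (h0 : ∀ i, val (H i) P = 0) :
    ∃ w : Fin k → im P, Orthonormal ℂ w ∧ ∀ i, val (H i) (Qw w) = 0 := by
  have hf := finrank_im hP hPP hN
  obtain ⟨w, hw, hw0⟩ := exists_plane (E := im P) (k := k) (by omega) (by omega) (fun i => cmp P (H i))
    (fun i => cmp_symm P (hH i)) (fun i => by
      rw [trace_cmp hP hPP]
      exact Complex.ext (h0 i) (im_trace (hH i) hP))
  refine ⟨w, hw, fun i => ?_⟩
  unfold val
  rw [trace_Qw, hw0 i, Complex.zero_re]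

theorem pf_arr (M : Fin 4 → Fin 4 → Matrix (Fin K) (Fin K) ℂ) (Q : Matrix (Fin K) (Fin K) ℂ) :
    pf (arr M Q) = val (M 0 1) Q * val (M 2 3) Q - val (M 0 2) Q * val (M 1 3) Q +
      val (M 0 3) Q * val (M 1 2) Q := rfl

/-- the positive case -/
theorem rigid_pos {P : Matrix (Fin K) (Fin K) ℂ} (hP : Pᴴ = P) (hPP : P * P = P) {N k : ℕ}
    (hN : P.trace = N) (h3 : 3 ≤ N) (hk : k < N) (M : Fin 4 → Fin 4 → Matrix (Fin K) (Fin K) ℂ)
    (hM : ∀ i j, (M i j)ᴴ = M i j)
    (hpos : ∀ w : Fin k → im P, Orthonormal ℂ w → 0 < pf (arr M (Qw w))) : 0 < pf (arr M P) := by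
  -- self-dual and anti-self-dual parts
  let A : Fin 3 → Matrix (Fin K) (Fin K) ℂ := ![M 0 1 + M 2 3, M 0 2 - M 1 3, M 0 3 + M 1 2]
  let B : Fin 3 → Matrix (Fin K) (Fin K) ℂ := ![M 0 1 - M 2 3, M 0 2 + M 1 3, M 0 3 - M 1 2]
  have hA : ∀ i, (A i)ᴴ = A i := by
    intro i
    fin_cases i <;> simp [A, conjTranspose_add, conjTranspose_sub, hM]
  have hB : ∀ i, (B i)ᴴ = B i := by
    intro i
    fin_cases i <;> simp [B, conjTranspose_add, conjTranspose_sub, hM]
  have hpf : ∀ Q, 4 * pf (arr M Q) = ∑ i, val (A i) Q ^ 2 - ∑ i, val (B i) Q ^ 2 := by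
    intro Q
    rw [pf_arr]
    simp only [A, B, Fin.sum_univ_three, Matrix.cons_val_zero, Matrix.cons_val_one,
      Matrix.cons_val_two, Matrix.head_cons, Matrix.tail_cons, Matrix.cons_val, val_add, val_sub]
    ring
  by_contra hneg
  have hle : ∑ i, val (A i) P ^ 2 ≤ ∑ i, val (B i) P ^ 2 := by
    have := hpf P
    push Not at hneg
    linarith
  set r2 := ∑ i, val (B i) P ^ 2 with hr2
  have hr0 : 0 ≤ r2 := Finset.sum_nonneg fun i _ => sq_nonneg _
  -- the form `S` and the vector `t`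
  obtain ⟨S, t, hS, ht, hSle, hzero⟩ : ∃ (S : Matrix (Fin K) (Fin K) ℂ) (t : Fin 3 → ℝ), Sᴴ = S ∧
      ∑ i, t i ^ 2 ≤ 1 ∧ (∀ Q, val S Q ^ 2 ≤ ∑ i, val (B i) Q ^ 2) ∧
      ∀ i, val (A i) P = t i * val S P := by
    rcases hr0.lt_or_eq with hr | hr
    · set r := Real.sqrt r2 with hrdef
      have hrpos : 0 < r := Real.sqrt_pos.2 hr
      have hrr : r ^ 2 = r2 := Real.sq_sqrt hr0
      refine ⟨∑ i, ((val (B i) P / r : ℝ) : ℂ) • B i, fun i => val (A i) P / r, ?_, ?_, ?_, ?_⟩
      · rw [conjTranspose_sum]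
        exact Finset.sum_congr rfl fun i _ => isHerm_smul (hB i) _
      · simp only [div_pow]
        rw [← Finset.sum_div, hrr, div_le_one hr]
        exact hle
      · intro Q
        have h1 : val (∑ i, ((val (B i) P / r : ℝ) : ℂ) • B i) Q = ∑ i, val (B i) P / r * val (B i) Q := by
          simp only [Fin.sum_univ_three, val_add, val_smul]
        rw [h1]
        have h2 := Finset.sum_mul_sq_le_sq_mul_sq Finset.univ (fun i => val (B i) P / r)
          (fun i => val (B i) Q)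
        have h3 : ∑ i, (val (B i) P / r) ^ 2 = 1 := by
          simp only [div_pow]
          rw [← Finset.sum_div, hrr, ← hr2, div_self hr.ne']
        rw [h3, one_mul] at h2
        exact h2
      · intro i
        have h1 : val (∑ i, ((val (B i) P / r : ℝ) : ℂ) • B i) P = ∑ i, val (B i) P / r * val (B i) P := by
          simp only [Fin.sum_univ_three, val_add, val_smul]
        have h2 : ∑ i, val (B i) P / r * val (B i) P = r := by
          have h4 : ∀ i, val (B i) P / r * val (B i) P = val (B i) P ^ 2 / r := by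
            intro i; ring
          simp only [h4]
          rw [← Finset.sum_div, ← hr2, ← hrr]
          field_simp
        rw [h1, h2]
        field_simp
    · refine ⟨0, 0, conjTranspose_zero, by simp, fun Q => ?_, fun i => ?_⟩
      · have : val (0 : Matrix (Fin K) (Fin K) ℂ) Q = 0 := by simp [val]
        rw [this]
        simpa using Finset.sum_nonneg (fun i _ => sq_nonneg (val (B i) Q))
      · have h1 : ∑ i, val (A i) P ^ 2 = 0 :=
          le_antisymm (hle.trans hr.symm.le) (Finset.sum_nonneg fun i _ => sq_nonneg _)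
        have h2 := (Finset.sum_eq_zero_iff_of_nonneg (fun i _ => sq_nonneg (val (A i) P))).1 h1 i
          (Finset.mem_univ i)
        rw [pow_eq_zero_iff two_ne_zero] at h2
        rw [h2, Pi.zero_apply, zero_mul]
  obtain ⟨w, hw, hw0⟩ := exists_Qw hP hPP hN h3 hk (fun i => A i - ((t i : ℝ) : ℂ) • S)
    (fun i => by rw [conjTranspose_sub, hA, isHerm_smul hS])
    (fun i => by rw [val_sub, val_smul, hzero i, sub_self])
  have h1 : ∀ i, val (A i) (Qw w) = t i * val S (Qw w) := by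
    intro i
    have := hw0 i
    rw [val_sub, val_smul] at this
    linarith
  have h2 := hpf (Qw w)
  have h4 := hpos w hw
  have h5 : ∑ i, val (A i) (Qw w) ^ 2 = (∑ i, t i ^ 2) * val S (Qw w) ^ 2 := by
    rw [Finset.sum_mul]
    exact Finset.sum_congr rfl fun i _ => by rw [h1 i]; ring
  have h6 := hSle (Qw w)
  have h7 : (∑ i, t i ^ 2) * val S (Qw w) ^ 2 ≤ 1 * val S (Qw w) ^ 2 :=
    mul_le_mul_of_nonneg_right ht (sq_nonneg _)
  linarith

theorem continuous_Qw {k : ℕ} {P : Matrix (Fin K) (Fin K) ℂ} :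
    Continuous fun w : Fin k → im P => Qw w := by
  unfold Qw
  refine continuous_finsetSum _ fun j _ => ?_
  have h1 : Continuous fun w : Fin k → im P => (w j : EuclideanSpace ℂ (Fin K)).ofLp :=
    (PiLp.continuous_ofLp 2 _).comp (continuous_subtype_val.comp (continuous_apply j))
  exact h1.matrix_vecMulVec (continuous_star.comp h1)

theorem continuous_pf (M : Fin 4 → Fin 4 → Matrix (Fin K) (Fin K) ℂ) {k : ℕ}
    {P : Matrix (Fin K) (Fin K) ℂ} : Continuous fun w : Fin k → im P => pf (arr M (Qw w)) := by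
  have h1 : ∀ i j, Continuous fun w : Fin k → im P => arr M (Qw w) i j := by
    intro i j
    unfold arr
    exact Complex.continuous_re.comp ((continuous_const.matrix_mul continuous_Qw).matrix_trace)
  unfold pf
  exact (((h1 0 1).mul (h1 2 3)).sub ((h1 0 2).mul (h1 1 3))).add ((h1 0 3).mul (h1 1 2))

/-- **Rigidity in rank at least 3.** -/
theorem rigid {P : Matrix (Fin K) (Fin K) ℂ} (hP : Pᴴ = P) (hPP : P * P = P) {N k : ℕ}
    (hN : P.trace = N) (h3 : 3 ≤ N) (hk : k < N) (M : Fin 4 → Fin 4 → Matrix (Fin K) (Fin K) ℂ)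
    (hM : ∀ i j, (M i j)ᴴ = M i j) (hne : ∀ Q ∈ Gr P k, pf (arr M Q) ≠ 0) : pf (arr M P) ≠ 0 := by
  have hf := finrank_im hP hPP hN
  have hne' : ∀ w : Fin k → im P, Orthonormal ℂ w → pf (arr M (Qw w)) ≠ 0 :=
    fun w hw => hne _ (Qw_mem hPP hw)
  -- some orthonormal family
  let b := stdOrthonormalBasis ℂ (im P)
  have hkf : k ≤ Module.finrank ℂ (im P) := by omega
  let w₀ : Fin k → im P := fun j => b (Fin.castLE hkf j)
  have hw₀ : Orthonormal ℂ w₀ := b.orthonormal.comp _ (Fin.castLE_injective hkf)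
  rcases lt_or_gt_of_ne (hne' w₀ hw₀) with hs | hs
  · -- negative case
    let M' : Fin 4 → Fin 4 → Matrix (Fin K) (Fin K) ℂ := fun i j => if i = 0 then -(M i j) else M i j
    have hM' : ∀ i j, (M' i j)ᴴ = M' i j := by
      intro i j
      simp only [M']
      split_ifs
      · rw [conjTranspose_neg, hM]
      · exact hM i j
    have hpf : ∀ Q, pf (arr M' Q) = -pf (arr M Q) := by
      intro Q
      simp [pf, arr, M']
      ring
    have h1 := rigid_pos hP hPP hN h3 hk M' hM' (fun w hw => by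
      have h2 := sign_const (g := fun w => -pf (arr M (Qw w))) (continuous_pf M).neg
        (fun w hw => neg_ne_zero.2 (hne' w hw)) hw₀ hw (by simpa using hs)
      rw [hpf]
      exact h2)
    rw [hpf] at h1
    linarith
  · have h1 := rigid_pos hP hPP hN h3 hk M hM (fun w hw =>
      sign_const (g := fun w => pf (arr M (Qw w))) (continuous_pf M) hne' hw₀ hw hs)
    exact h1.ne'

end

end Pool.Agent.W_9986fc_h13
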