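import Pool.Agent.W_9986fc_h13.Rigid
import Pool.Agent.W_9986fc_h13.Flag2

/-!
MP_9986fc_gt (helper13).  Rigidity in rank at least 3 for all partial flags (all coadjoint orbits of
`U(N)`), affine form: `P` is a Hermitian projection of rank `N ≥ 3`, the `M i j` are Hermitian, `b i j`
real, the weights `l a` arbitrary.  If the 2-forms `b i j + Re tr (M i j (∑ l a Q a))` on `ℝ^4` are
nondegenerate for all decompositions `P = ∑ Q a` into orthogonal projections of ranks `k a`, then so is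
the average `b i j + (∑ l a k a / N) Re tr (M i j P)`.
-/

set_option autoImplicit false

namespace Pool.Agent.W_9986fc_h13

open Matrix

noncomputable section

/-! ### the abstract argument -/

section Abs

variable {V ι : Type*} [AddCommGroup V] [Module ℝ V]

theorem abs_pos' (ev : ι → V →ₗ[ℝ] ℝ) (av : V →ₗ[ℝ] ℝ)
    (h : ∀ p : Fin 3 → V, (∀ i, av (p i) = 0) → ∃ w, ∀ i, ev w (p i) = 0)
    (m : Fin 4 → Fin 4 → V) (hpos : ∀ w, 0 < pf (fun i j => ev w (m i j))) :
    0 < pf (fun i j => av (m i j)) := by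
  let A : Fin 3 → V := ![m 0 1 + m 2 3, m 0 2 - m 1 3, m 0 3 + m 1 2]
  let B : Fin 3 → V := ![m 0 1 - m 2 3, m 0 2 + m 1 3, m 0 3 - m 1 2]
  have hpf : ∀ f : V →ₗ[ℝ] ℝ, 4 * pf (fun i j => f (m i j)) =
      ∑ i, f (A i) ^ 2 - ∑ i, f (B i) ^ 2 := by
    intro f
    simp only [pf, A, B, Fin.sum_univ_three, Matrix.cons_val_zero, Matrix.cons_val_one,
      Matrix.cons_val, map_add, map_sub]
    ring
  by_contra hneg
  have hle : ∑ i, av (A i) ^ 2 ≤ ∑ i, av (B i) ^ 2 := by
    have := hpf av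
    push Not at hneg
    linarith
  set r2 := ∑ i, av (B i) ^ 2 with hr2
  have hr0 : 0 ≤ r2 := Finset.sum_nonneg fun i _ => sq_nonneg _
  obtain ⟨S, t, ht, hSle, hzero⟩ : ∃ (S : V) (t : Fin 3 → ℝ),
      ∑ i, t i ^ 2 ≤ 1 ∧ (∀ f : V →ₗ[ℝ] ℝ, f S ^ 2 ≤ ∑ i, f (B i) ^ 2) ∧
      ∀ i, av (A i) = t i * av S := by
    rcases hr0.lt_or_eq with hr | hr
    · set r := Real.sqrt r2 with hrdef
      have hrpos : 0 < r := Real.sqrt_pos.2 hr
      have hrr : r ^ 2 = r2 := Real.sq_sqrt hr0
      refine ⟨∑ i, (av (B i) / r) • B i, fun i => av (A i) / r, ?_, ?_, ?_⟩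
      · simp only [div_pow]
        rw [← Finset.sum_div, hrr, div_le_one hr]
        exact hle
      · intro f
        have h1 : f (∑ i, (av (B i) / r) • B i) = ∑ i, av (B i) / r * f (B i) := by
          simp only [map_sum, map_smul, smul_eq_mul]
        rw [h1]
        have h2 := Finset.sum_mul_sq_le_sq_mul_sq Finset.univ (fun i => av (B i) / r)
          (fun i => f (B i))
        have h3 : ∑ i, (av (B i) / r) ^ 2 = 1 := by
          simp only [div_pow]
          rw [← Finset.sum_div, hrr, ← hr2, div_self hr.ne']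
        rw [h3, one_mul] at h2
        exact h2
      · intro i
        have h1 : av (∑ i, (av (B i) / r) • B i) = ∑ i, av (B i) / r * av (B i) := by
          simp only [map_sum, map_smul, smul_eq_mul]
        have h2 : ∑ i, av (B i) / r * av (B i) = r := by
          have h4 : ∀ i, av (B i) / r * av (B i) = av (B i) ^ 2 / r := by
            intro i; ring
          simp only [h4]
          rw [← Finset.sum_div, ← hr2, ← hrr]
          field_simp
        rw [h1, h2]
        field_simp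
    · refine ⟨0, 0, by simp, fun f => ?_, fun i => ?_⟩
      · rw [map_zero]
        simpa using Finset.sum_nonneg (fun i _ => sq_nonneg (f (B i)))
      · have h1 : ∑ i, av (A i) ^ 2 = 0 :=
          le_antisymm (hle.trans hr.symm.le) (Finset.sum_nonneg fun i _ => sq_nonneg _)
        have h2 := (Finset.sum_eq_zero_iff_of_nonneg (fun i _ => sq_nonneg (av (A i)))).1 h1 i
          (Finset.mem_univ i)
        rw [pow_eq_zero_iff two_ne_zero] at h2
        rw [h2, Pi.zero_apply, zero_mul]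
  obtain ⟨w, hw0⟩ := h (fun i => A i - t i • S)
    (fun i => by rw [map_sub, map_smul, smul_eq_mul, hzero i, sub_self])
  have h1 : ∀ i, ev w (A i) = t i * ev w S := by
    intro i
    have := hw0 i
    rw [map_sub, map_smul, smul_eq_mul] at this
    linarith
  have h2 := hpf (ev w)
  have h4 := hpos w
  have h5 : ∑ i, ev w (A i) ^ 2 = (∑ i, t i ^ 2) * ev w S ^ 2 := by
    rw [Finset.sum_mul]
    exact Finset.sum_congr rfl fun i _ => by rw [h1 i]; ring
  have h6 := hSle (ev w)
  have h7 : (∑ i, t i ^ 2) * ev w S ^ 2 ≤ 1 * ev w S ^ 2 :=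
    mul_le_mul_of_nonneg_right ht (sq_nonneg _)
  linarith

/-- the same with a sign condition instead of positivity -/
theorem abs_ne [Nonempty ι] (ev : ι → V →ₗ[ℝ] ℝ) (av : V →ₗ[ℝ] ℝ)
    (h : ∀ p : Fin 3 → V, (∀ i, av (p i) = 0) → ∃ w, ∀ i, ev w (p i) = 0)
    (m : Fin 4 → Fin 4 → V) (hne : ∀ w, pf (fun i j => ev w (m i j)) ≠ 0)
    (hs : ∀ w w', 0 < pf (fun i j => ev w (m i j)) → 0 < pf (fun i j => ev w' (m i j))) :
    pf (fun i j => av (m i j)) ≠ 0 := by
  obtain ⟨w₀⟩ := ‹Nonempty ι›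
  rcases lt_or_gt_of_ne (hne w₀) with h0 | h0
  · have hm : ∀ f : V →ₗ[ℝ] ℝ, pf (fun i j => f (if i = 0 then -(m i j) else m i j)) =
        -pf (fun i j => f (m i j)) := by
      intro f
      simp [pf]
      ring
    have h1 := abs_pos' ev av h (fun i j => if i = 0 then -(m i j) else m i j) (fun w => by
      rw [hm]
      rcases lt_or_gt_of_ne (hne w) with h2 | h2
      · linarith
      · have := hs w w₀ h2
        linarith)
    rw [hm] at h1
    linarith
  · exact (abs_pos' ev av h m fun w => hs w₀ w h0).ne'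

end Abs

variable {K : ℕ}

/-- weighted sum of the projections onto the lines of `w j` -/
def QL {k : ℕ} {P : Matrix (Fin K) (Fin K) ℂ} (lam : Fin k → ℝ) (w : Fin k → im P) :
    Matrix (Fin K) (Fin K) ℂ :=
  ∑ j, ((lam j : ℝ) : ℂ) • vecMulVec (w j : EuclideanSpace ℂ (Fin K)).ofLp
    (star (w j : EuclideanSpace ℂ (Fin K)).ofLp)

theorem trace_QL {k : ℕ} {P : Matrix (Fin K) (Fin K) ℂ} (lam : Fin k → ℝ) (w : Fin k → im P)
    (H : Matrix (Fin K) (Fin K) ℂ) :
    (H * QL lam w).trace = ∑ j, (lam j : ℂ) * (inner ℂ (w j) (cmp P H (w j)) : ℂ) := by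
  unfold QL
  rw [Finset.mul_sum, Matrix.trace_sum]
  refine Finset.sum_congr rfl fun j _ => ?_
  rw [inner_cmp, inner_act, Matrix.mul_smul, Matrix.trace_smul, Matrix.mul_vecMulVec,
    Matrix.trace_vecMulVec, dotProduct_comm, smul_eq_mul]

theorem val_QL {k : ℕ} {P : Matrix (Fin K) (Fin K) ℂ} (lam : Fin k → ℝ) (w : Fin k → im P)
    (H : Matrix (Fin K) (Fin K) ℂ) :
    val H (QL lam w) = ∑ j, lam j * (inner ℂ (w j) (cmp P H (w j)) : ℂ).re := by
  unfold val
  rw [trace_QL, Complex.re_sum]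
  exact Finset.sum_congr rfl fun j _ => Complex.re_ofReal_mul _ _

theorem val_P_QL {k : ℕ} {P : Matrix (Fin K) (Fin K) ℂ} (hPP : P * P = P) (lam : Fin k → ℝ)
    {w : Fin k → im P} (hw : Orthonormal ℂ w) : val P (QL lam w) = ∑ j, lam j := by
  rw [val_QL]
  refine Finset.sum_congr rfl fun j _ => ?_
  rw [inner_cmp, act_mem hPP (w j).2]
  have h1 : (inner ℂ (w j : EuclideanSpace ℂ (Fin K)) (w j : EuclideanSpace ℂ (Fin K)) : ℂ) =
      (inner ℂ (w j) (w j) : ℂ) := rfl
  rw [h1, orthonormal_iff_ite.1 hw, if_pos rfl, Complex.one_re, mul_one]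

theorem val_PP {P : Matrix (Fin K) (Fin K) ℂ} (hPP : P * P = P) {N : ℕ} (hN : P.trace = N) :
    val P P = N := by
  unfold val
  rw [hPP, hN, Complex.natCast_re]

/-- Lemma F for projections -/
theorem exists_QL {P : Matrix (Fin K) (Fin K) ℂ} (hP : Pᴴ = P) (hPP : P * P = P) {N : ℕ}
    (hN : P.trace = N) (h3 : 3 ≤ N) (lam : Fin N → ℝ) (β : Fin 3 → ℝ)
    (H : Fin 3 → Matrix (Fin K) (Fin K) ℂ) (hH : ∀ i, (H i)ᴴ = H i)
    (h0 : ∀ i, β i + (∑ j, lam j) / N * val (H i) P = 0) :
    ∃ w : Fin N → im P, Orthonormal ℂ w ∧ ∀ i, β i + val (H i) (QL lam w) = 0 := by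
  have hf := finrank_im hP hPP hN
  subst hf
  have hN0 : (0 : ℝ) < (Module.finrank ℂ (im P) : ℝ) := by
    have : 0 < Module.finrank ℂ (im P) := by omega
    exact_mod_cast this
  set H' : Fin 3 → Matrix (Fin K) (Fin K) ℂ :=
    fun i => H i - ((val (H i) P / (Module.finrank ℂ (im P) : ℝ) : ℝ) : ℂ) • P with hH'
  have hH'h : ∀ i, (H' i)ᴴ = H' i := by
    intro i
    rw [hH']
    simp only
    rw [conjTranspose_sub, hH, isHerm_smul hP]
  have hval : ∀ i Q, val (H' i) Q =
      val (H i) Q - val (H i) P / (Module.finrank ℂ (im P) : ℝ) * val P Q := by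
    intro i Q
    rw [hH']
    simp only
    rw [val_sub, val_smul]
  obtain ⟨w, hw, hw0⟩ := exists_flag_zero (E := im P) h3 (fun i => cmp P (H' i))
    (fun i => cmp_symm P (hH'h i)) lam (fun i => by
      rw [trace_cmp hP hPP]
      have : ((H' i * P).trace).re = val (H' i) P := rfl
      rw [this, hval, val_PP hPP hN]
      rw [div_mul_cancel₀ _ hN0.ne', sub_self, mul_zero])
  refine ⟨w, hw, fun i => ?_⟩
  have h1 : val (H' i) (QL lam w) = 0 := by
    rw [val_QL]
    have h2 := congrFun hw0 i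
    unfold FL at h2
    rw [Finset.sum_apply] at h2
    simpa [F, Q] using h2
  rw [hval, val_P_QL hPP lam hw] at h1
  have h2 := h0 i
  have h3 : val (H i) P / (Module.finrank ℂ (im P) : ℝ) * ∑ j, lam j =
      (∑ j, lam j) / (Module.finrank ℂ (im P) : ℝ) * val (H i) P := by ring
  linarith

/-- pairs (real number, Hermitian matrix) -/
abbrev Pr (K : ℕ) : Type := ℝ × selfAdjoint.submodule ℝ (Matrix (Fin K) (Fin K) ℂ)

/-- evaluation `x + t val H Q` -/
def evP (t : ℝ) (Q : Matrix (Fin K) (Fin K) ℂ) : Pr K →ₗ[ℝ] ℝ where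
  toFun p := p.1 + t * val (p.2 : Matrix (Fin K) (Fin K) ℂ) Q
  map_add' p q := by
    simp only [Prod.fst_add, Prod.snd_add, Submodule.coe_add, val_add]
    ring
  map_smul' c p := by
    have h : ((c • p.2 : selfAdjoint.submodule ℝ (Matrix (Fin K) (Fin K) ℂ)) :
        Matrix (Fin K) (Fin K) ℂ) = (c : ℂ) • (p.2 : Matrix (Fin K) (Fin K) ℂ) := by
      ext i j
      simp
    simp only [Prod.smul_fst, Prod.smul_snd, smul_eq_mul, RingHom.id_apply, h, val_smul]
    ring

theorem evP_apply (t : ℝ) (Q : Matrix (Fin K) (Fin K) ℂ) (p : Pr K) :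
    evP t Q p = p.1 + t * val (p.2 : Matrix (Fin K) (Fin K) ℂ) Q := rfl

theorem continuous_QL {k : ℕ} {P : Matrix (Fin K) (Fin K) ℂ} (lam : Fin k → ℝ) :
    Continuous fun w : Fin k → im P => QL lam w := by
  unfold QL
  refine continuous_finsetSum _ fun j _ => ?_
  have h1 : Continuous fun w : Fin k → im P => (w j : EuclideanSpace ℂ (Fin K)).ofLp :=
    (PiLp.continuous_ofLp 2 _).comp (continuous_subtype_val.comp (continuous_apply j))
  exact (h1.matrix_vecMulVec (continuous_star.comp h1)).const_smul ((lam j : ℝ) : ℂ)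

theorem continuous_pfL {k : ℕ} {P : Matrix (Fin K) (Fin K) ℂ} (lam : Fin k → ℝ)
    (b : Fin 4 → Fin 4 → ℝ) (M : Fin 4 → Fin 4 → Matrix (Fin K) (Fin K) ℂ) :
    Continuous fun w : Fin k → im P => pf (fun i j => b i j + arr M (QL lam w) i j) := by
  have h1 : ∀ i j, Continuous fun w : Fin k → im P => b i j + arr M (QL lam w) i j := by
    intro i j
    unfold arr
    exact continuous_const.add (Complex.continuous_re.comp
      ((continuous_const.matrix_mul (continuous_QL lam)).matrix_trace))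
  unfold pf
  exact (((h1 0 1).mul (h1 2 3)).sub ((h1 0 2).mul (h1 1 3))).add ((h1 0 3).mul (h1 1 2))

/-- **Rigidity**, in terms of orthonormal bases. -/
theorem rigid_QL {P : Matrix (Fin K) (Fin K) ℂ} (hP : Pᴴ = P) (hPP : P * P = P) {N : ℕ}
    (hN : P.trace = N) (h3 : 3 ≤ N) (lam : Fin N → ℝ) (b : Fin 4 → Fin 4 → ℝ)
    (M : Fin 4 → Fin 4 → Matrix (Fin K) (Fin K) ℂ) (hM : ∀ i j, (M i j)ᴴ = M i j)
    (hne : ∀ w : Fin N → im P, Orthonormal ℂ w →
      pf (fun i j => b i j + arr M (QL lam w) i j) ≠ 0) :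
    pf (fun i j => b i j + (∑ j, lam j) / N * arr M P i j) ≠ 0 := by
  have hf := finrank_im hP hPP hN
  let b₀ := stdOrthonormalBasis ℂ (im P)
  let w₀ : Fin N → im P := fun j => b₀ (Fin.cast hf.symm j)
  have hw₀ : Orthonormal ℂ w₀ := b₀.orthonormal.comp _ (Fin.cast_injective _)
  have : Nonempty {w : Fin N → im P // Orthonormal ℂ w} := ⟨⟨w₀, hw₀⟩⟩
  let m : Fin 4 → Fin 4 → Pr K := fun i j => (b i j, ⟨M i j, hM i j⟩)
  have h1 := abs_ne (ι := {w : Fin N → im P // Orthonormal ℂ w})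
    (fun w => evP 1 (QL lam w.1)) (evP ((∑ j, lam j) / N) P) (fun p hp => by
      obtain ⟨w, hw, hw0⟩ := exists_QL hP hPP hN h3 lam (fun i => (p i).1) (fun i => (p i).2)
        (fun i => (p i).2.2) (fun i => hp i)
      exact ⟨⟨w, hw⟩, fun i => by rw [evP_apply, one_mul]; exact hw0 i⟩) m (fun w => by
      have := hne w.1 w.2
      simpa [evP_apply, m, arr, val] using this) (fun w w' hpos => by
      have h2 := sign_const (g := fun w => pf (fun i j => b i j + arr M (QL lam w) i j))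
        (continuous_pfL lam b M) hne w.2 w'.2 (by simpa [evP_apply, m, arr, val] using hpos)
      simpa [evP_apply, m, arr, val] using h2)
  simpa [evP_apply, m, arr, val] using h1

/-- decompositions of `P` into orthogonal projections of ranks `k a` -/
structure IsFlag {s : ℕ} (P : Matrix (Fin K) (Fin K) ℂ) (k : Fin s → ℕ)
    (Q : Fin s → Matrix (Fin K) (Fin K) ℂ) : Prop where
  herm : ∀ a, (Q a)ᴴ = Q a
  mul : ∀ a c, Q a * Q c = if a = c then Q a else 0
  sum : ∑ a, Q a = P
  trace : ∀ a, (Q a).trace = (k a : ℂ)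

/-- the flag of an orthonormal basis and a map to the index set -/
def QF {s k : ℕ} {P : Matrix (Fin K) (Fin K) ℂ} (σ : Fin k → Fin s) (w : Fin k → im P)
    (a : Fin s) : Matrix (Fin K) (Fin K) ℂ := QL (fun j => if σ j = a then 1 else 0) w

theorem QL_mul {k : ℕ} {P : Matrix (Fin K) (Fin K) ℂ} (lam mu : Fin k → ℝ) {w : Fin k → im P}
    (hw : Orthonormal ℂ w) : QL lam w * QL mu w = QL (fun j => lam j * mu j) w := by
  unfold QL
  rw [Finset.sum_mul_sum]
  refine Finset.sum_congr rfl fun i _ => ?_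
  rw [Finset.sum_eq_single i]
  · rw [smul_mul_smul_comm, vecMulVec_mul_vecMulVec, star_dot, orthonormal_iff_ite.1 hw,
      if_pos rfl, one_smul, Complex.ofReal_mul]
  · intro j _ hj
    rw [smul_mul_smul_comm, vecMulVec_mul_vecMulVec, star_dot, orthonormal_iff_ite.1 hw,
      if_neg (Ne.symm hj), zero_smul, vecMulVec_zero, smul_zero]
  · intro h
    exact absurd (Finset.mem_univ _) h

theorem QL_zero {k : ℕ} {P : Matrix (Fin K) (Fin K) ℂ} (w : Fin k → im P) :
    QL (fun _ => 0) w = 0 := by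
  unfold QL
  simp

theorem QL_herm {k : ℕ} {P : Matrix (Fin K) (Fin K) ℂ} (lam : Fin k → ℝ) (w : Fin k → im P) :
    (QL lam w)ᴴ = QL lam w := by
  unfold QL
  rw [conjTranspose_sum]
  refine Finset.sum_congr rfl fun j _ => ?_
  rw [conjTranspose_smul, conjTranspose_vecMulVec, star_star, Complex.star_def, Complex.conj_ofReal]

theorem QL_trace {k : ℕ} {P : Matrix (Fin K) (Fin K) ℂ} (lam : Fin k → ℝ) {w : Fin k → im P}
    (hw : Orthonormal ℂ w) : (QL lam w).trace = ((∑ j, lam j : ℝ) : ℂ) := by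
  unfold QL
  rw [Matrix.trace_sum, Complex.ofReal_sum]
  refine Finset.sum_congr rfl fun j _ => ?_
  rw [Matrix.trace_smul, Matrix.trace_vecMulVec, dotProduct_comm, star_dot,
    orthonormal_iff_ite.1 hw, if_pos rfl, smul_eq_mul, mul_one]

theorem QL_one {P : Matrix (Fin K) (Fin K) ℂ} (hP : Pᴴ = P) (hPP : P * P = P) {N : ℕ}
    (hN : P.trace = N) {w : Fin N → im P} (hw : Orthonormal ℂ w) : QL (fun _ => 1) w = P := by
  have hf := finrank_im hP hPP hN
  have hspan : ⊤ ≤ Submodule.span ℂ (Set.range w) := by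
    rw [← LinearIndependent.span_eq_top_of_card_eq_finrank' hw.linearIndependent (by
      rw [Fintype.card_fin, hf])]
  have h1 := Qw_basis hP hPP (OrthonormalBasis.mk hw hspan)
  refine Eq.trans ?_ h1
  unfold Qw QL
  refine Finset.sum_congr rfl fun j _ => ?_
  rw [OrthonormalBasis.coe_mk, Complex.ofReal_one, one_smul]

theorem QL_sum {s k : ℕ} {P : Matrix (Fin K) (Fin K) ℂ} (σ : Fin k → Fin s) (l : Fin s → ℝ)
    (w : Fin k → im P) : ∑ a, ((l a : ℝ) : ℂ) • QF σ w a = QL (fun j => l (σ j)) w := by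
  unfold QF QL
  simp only [Finset.smul_sum]
  rw [Finset.sum_comm]
  refine Finset.sum_congr rfl fun j _ => ?_
  rw [Finset.sum_eq_single (σ j)]
  · rw [if_pos rfl, Complex.ofReal_one, one_smul]
  · intro a _ ha
    rw [if_neg (Ne.symm ha), Complex.ofReal_zero, zero_smul, smul_zero]
  · intro h
    exact absurd (Finset.mem_univ _) h

theorem QF_isFlag {s : ℕ} {P : Matrix (Fin K) (Fin K) ℂ} (hP : Pᴴ = P) (hPP : P * P = P) {N : ℕ}
    (hN : P.trace = N) {w : Fin N → im P} (hw : Orthonormal ℂ w) (σ : Fin N → Fin s)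
    (k : Fin s → ℕ) (hσ : ∀ a, (Finset.univ.filter fun j => σ j = a).card = k a) :
    IsFlag P k (QF σ w) where
  herm a := QL_herm _ _
  mul a c := by
    unfold QF
    rw [QL_mul _ _ hw]
    split_ifs with h
    · subst h
      congr 1
      funext j
      split_ifs <;> simp
    · rw [← QL_zero w]
      congr 1
      funext j
      split_ifs with h1 h2
      · exact absurd (h1.symm.trans h2) h
      all_goals simp
  sum := by
    have h1 := QL_sum σ (fun _ => 1) w
    simp only [Complex.ofReal_one, one_smul] at h1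
    rw [h1, QL_one hP hPP hN hw]
  trace a := by
    unfold QF
    rw [QL_trace _ hw, Finset.sum_boole, hσ a]
    simp

/-- a map `Fin N → Fin s` with fibres of sizes `k a` -/
theorem exists_sigma {s N : ℕ} (k : Fin s → ℕ) (hk : ∑ a, k a = N) :
    ∃ σ : Fin N → Fin s, ∀ a, (Finset.univ.filter fun j => σ j = a).card = k a := by
  subst hk
  refine ⟨fun j => (finSigmaFinEquiv.symm j).1, fun a => ?_⟩
  have h1 : (Finset.univ.filter fun j : Fin (∑ a, k a) => (finSigmaFinEquiv.symm j).1 = a) =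
      (Finset.univ : Finset (Fin (k a))).map
        ⟨fun i => finSigmaFinEquiv ⟨a, i⟩, fun i j h => by simpa using h⟩ := by
    ext j
    simp only [Finset.mem_filter, Finset.mem_univ, true_and, Finset.mem_map,
      Function.Embedding.coeFn_mk]
    constructor
    · rintro h
      obtain ⟨x, hx⟩ := finSigmaFinEquiv.surjective j
      subst hx
      rw [Equiv.symm_apply_apply] at h
      obtain ⟨a', i⟩ := x
      subst h
      exact ⟨i, rfl⟩
    · rintro ⟨i, rfl⟩
      rw [Equiv.symm_apply_apply]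
  rw [h1, Finset.card_map, Finset.card_univ, Fintype.card_fin]

/-- **Rigidity in rank at least 3 for all flag bundles.** -/
theorem rigid_flag {P : Matrix (Fin K) (Fin K) ℂ} (hP : Pᴴ = P) (hPP : P * P = P) {N : ℕ}
    (hN : P.trace = N) (h3 : 3 ≤ N) {s : ℕ} (k : Fin s → ℕ) (hk : ∑ a, k a = N)
    (l : Fin s → ℝ) (b : Fin 4 → Fin 4 → ℝ)
    (M : Fin 4 → Fin 4 → Matrix (Fin K) (Fin K) ℂ) (hM : ∀ i j, (M i j)ᴴ = M i j)
    (hne : ∀ Q : Fin s → Matrix (Fin K) (Fin K) ℂ, IsFlag P k Q →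
      pf (fun i j => b i j + arr M (∑ a, ((l a : ℝ) : ℂ) • Q a) i j) ≠ 0) :
    pf (fun i j => b i j + (∑ a, l a * k a) / N * arr M P i j) ≠ 0 := by
  obtain ⟨σ, hσ⟩ := exists_sigma k hk
  have h1 : ∑ j, l (σ j) = ∑ a, l a * k a := by
    rw [← Finset.sum_fiberwise (s := Finset.univ) (g := σ)]
    refine Finset.sum_congr rfl fun a _ => ?_
    rw [Finset.sum_congr rfl (g := fun _ => l a) (fun j hj => by
      rw [(Finset.mem_filter.1 hj).2]), Finset.sum_const, hσ a, nsmul_eq_mul, mul_comm]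
  have h2 := rigid_QL hP hPP hN h3 (fun j => l (σ j)) b M hM (fun w hw => by
    rw [← QL_sum]
    exact hne _ (QF_isFlag hP hPP hN hw σ k hσ))
  rw [h1] at h2
  exact h2

end

end Pool.Agent.W_9986fc_h13
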