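import Pool.Agent.W_9986fc_h13.RigidFl
import Pool.Agent.W_9986fc_h42.Defs
import Pool.Agent.W_9986fc_h63.Base

/-!
MP_9986fc_gt (helper13).  `rigid_flag` in the notation of `W_9986fc_h63.Base` and `W_9986fc_h42.Defs`.
-/

set_option autoImplicit false

namespace Pool.Agent.W_9986fc_h13

open Matrix

theorem isFlag_iff {K s : ℕ} {P : Matrix (Fin K) (Fin K) ℂ} {k : Fin s → ℕ}
    {Q : Fin s → Matrix (Fin K) (Fin K) ℂ} :
    Pool.Agent.W_9986fc_h63.IsFlag k P Q ↔ IsFlag P k Q :=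
  ⟨fun h => ⟨h.herm, h.mul, h.sum, h.rank⟩, fun h => ⟨h.herm, h.mul, h.trace, h.sum⟩⟩

/-- affine form: `b` arbitrary -/
theorem rigidFl_affine {K N s : ℕ} {P : CF42.Mat K} (hP : CF42.IsProj P N) (hN : 3 ≤ N)
    {k : Fin s → ℕ} (hsum : ∑ a, k a = N) (l : Fin s → ℝ) (b : Fin 4 → Fin 4 → ℝ)
    {M : Fin 4 → Fin 4 → CF42.Mat K} (hM : ∀ i j, (M i j)ᴴ = M i j)
    (h : ∀ Q, Pool.Agent.W_9986fc_h63.IsFlag k P Q →
      CF42.pf (fun i j => b i j + CF42.arr M (∑ a, (l a : ℂ) • Q a) i j) ≠ 0) :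
    CF42.pf (fun i j => b i j + (∑ a, l a * k a) / N * CF42.arr M P i j) ≠ 0 :=
  rigid_flag hP.herm hP.idem hP.trace hN k hsum l b M hM fun Q hQ => h Q (isFlag_iff.2 hQ)

theorem rigidFl {K N s : ℕ} {P : CF42.Mat K} (hP : CF42.IsProj P N) (hN : 3 ≤ N)
    {k : Fin s → ℕ} (_hk : ∀ a, 1 ≤ k a) (hsum : ∑ a, k a = N) {l : Fin s → ℝ}
    (_hl : ∃ a b, l a ≠ l b) (hl1 : ∑ a, l a * k a = N) {M : Fin 4 → Fin 4 → CF42.Mat K}
    (hM : CF42.HermAlt M)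
    (h : ∀ Q, Pool.Agent.W_9986fc_h63.IsFlag k P Q →
      CF42.pf (CF42.arr M (∑ a, (l a : ℂ) • Q a)) ≠ 0) :
    CF42.pf (CF42.arr M P) ≠ 0 := by
  have h1 := rigidFl_affine hP hN hsum l (fun _ _ => 0) hM.herm (fun Q hQ => by
    simp only [zero_add]
    exact h Q hQ)
  have hN' : (N : ℝ) ≠ 0 := by
    have : N ≠ 0 := by omega
    exact_mod_cast this
  simp only [zero_add, hl1, div_self hN', one_mul] at h1
  exact h1

end Pool.Agent.W_9986fc_h13
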